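import Mathlib

/-!
# The ring `ℤ[α]`, `α = (3 + √5) / 2`, in coordinates

A pair `(x, y)` of integers stands for `x + y α`.  Its norm is `x² + 3 x y + y²`, so that
`k² + 3 k + 1` is the norm of `k + α`.
-/

open Real

namespace Pool.Agent.Lib.MP_d57abb_nt

/-- `α = (3 + √5) / 2` -/
noncomputable def al : ℝ := (3 + √5) / 2
/-- the conjugate of `α` -/
noncomputable def be : ℝ := (3 - √5) / 2

theorem sqrt5_sq : √5 * √5 = (5 : ℝ) := Real.mul_self_sqrt (by norm_num)

theorem sqrt5_lo : (2.236 : ℝ) < √5 := by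
  rw [Real.lt_sqrt (by norm_num)]; norm_num

theorem sqrt5_hi : √5 < (2.237 : ℝ) := by
  rw [Real.sqrt_lt' (by norm_num)]; norm_num

theorem al_add_be : al + be = 3 := by unfold al be; ring
theorem al_mul_be : al * be = 1 := by
  unfold al be; nlinarith [sqrt5_sq]
theorem al_sub_be : al - be = √5 := by unfold al be; ring
theorem al_lo : 2.618 < al := by unfold al; linarith [sqrt5_lo]
theorem al_hi : al < 2.6185 := by unfold al; linarith [sqrt5_hi]
theorem be_lo : 0.3815 < be := by unfold be; linarith [sqrt5_hi]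
theorem be_hi : be < 0.382 := by unfold be; linarith [sqrt5_lo]
theorem al_sq : al * al = 3 * al - 1 := by
  have h1 := al_add_be
  have h2 := al_mul_be
  have : be = 3 - al := by linarith
  rw [this] at h2; linarith
theorem be_sq : be * be = 3 * be - 1 := by
  have h1 := al_add_be
  have h2 := al_mul_be
  have : al = 3 - be := by linarith
  rw [this] at h2; linarith

/-- first real embedding -/
noncomputable def pp (v : ℤ × ℤ) : ℝ := v.1 + v.2 * al
/-- second real embedding -/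
noncomputable def qq (v : ℤ × ℤ) : ℝ := v.1 + v.2 * be
/-- norm -/
def nm (v : ℤ × ℤ) : ℤ := v.1 ^ 2 + 3 * v.1 * v.2 + v.2 ^ 2
/-- determinant -/
def dt (v w : ℤ × ℤ) : ℤ := v.1 * w.2 - w.1 * v.2
/-- product -/
def ml (v w : ℤ × ℤ) : ℤ × ℤ := (v.1 * w.1 - v.2 * w.2, v.1 * w.2 + w.1 * v.2 + 3 * v.2 * w.2)
/-- totally positive -/
def TP (v : ℤ × ℤ) : Prop := 0 < pp v ∧ 0 < qq v
/-- angle -/
noncomputable def an (v : ℤ × ℤ) : ℝ := Real.log (pp v) - Real.log (qq v)

theorem pp_mul_qq (v : ℤ × ℤ) : pp v * qq v = nm v := by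
  unfold pp qq nm
  push_cast
  have h1 := al_add_be
  have h2 := al_mul_be
  linear_combination (v.1 : ℝ) * v.2 * h1 + (v.2 : ℝ) ^ 2 * h2

theorem pp_ml (v w : ℤ × ℤ) : pp (ml v w) = pp v * pp w := by
  unfold pp ml
  push_cast
  linear_combination - (v.2 : ℝ) * w.2 * al_sq

theorem qq_ml (v w : ℤ × ℤ) : qq (ml v w) = qq v * qq w := by
  unfold qq ml
  push_cast
  linear_combination - (v.2 : ℝ) * w.2 * be_sq

theorem nm_ml (v w : ℤ × ℤ) : nm (ml v w) = nm v * nm w := by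
  unfold nm ml; ring

theorem TP.ml {v w : ℤ × ℤ} (hv : TP v) (hw : TP w) : TP (ml v w) :=
  ⟨by rw [pp_ml]; exact mul_pos hv.1 hw.1, by rw [qq_ml]; exact mul_pos hv.2 hw.2⟩

theorem an_ml {v w : ℤ × ℤ} (hv : TP v) (hw : TP w) : an (ml v w) = an v + an w := by
  unfold an
  rw [pp_ml, qq_ml, Real.log_mul hv.1.ne' hw.1.ne', Real.log_mul hv.2.ne' hw.2.ne']
  ring

theorem TP.nm_pos {v : ℤ × ℤ} (hv : TP v) : 0 < nm v := by
  have := mul_pos hv.1 hv.2
  rw [pp_mul_qq] at this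
  exact_mod_cast this

/-- the determinant in terms of the embeddings -/
theorem dt_eq (v w : ℤ × ℤ) : (dt v w : ℝ) * √5 = pp w * qq v - pp v * qq w := by
  rw [← al_sub_be]
  unfold dt pp qq
  push_cast
  ring

theorem pp_add (v w : ℤ × ℤ) : pp (v + w) = pp v + pp w := by
  unfold pp; simp only [Prod.fst_add, Prod.snd_add]; push_cast; ring
theorem qq_add (v w : ℤ × ℤ) : qq (v + w) = qq v + qq w := by
  unfold qq; simp only [Prod.fst_add, Prod.snd_add]; push_cast; ring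
theorem pp_smul (n : ℤ) (v : ℤ × ℤ) : pp (n • v) = n * pp v := by
  unfold pp; simp only [Prod.smul_fst, Prod.smul_snd, smul_eq_mul]; push_cast; ring
theorem qq_smul (n : ℤ) (v : ℤ × ℤ) : qq (n • v) = n * qq v := by
  unfold qq; simp only [Prod.smul_fst, Prod.smul_snd, smul_eq_mul]; push_cast; ring
theorem nm_smul (n : ℤ) (v : ℤ × ℤ) : nm (n • v) = n ^ 2 * nm v := by
  unfold nm; simp only [Prod.smul_fst, Prod.smul_snd, smul_eq_mul]; ring
theorem dt_smul_right (n : ℤ) (v w : ℤ × ℤ) : dt v (n • w) = n * dt v w := by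
  unfold dt; simp only [Prod.smul_fst, Prod.smul_snd, smul_eq_mul]; ring
theorem dt_smul_left (n : ℤ) (v w : ℤ × ℤ) : dt (n • v) w = n * dt v w := by
  unfold dt; simp only [Prod.smul_fst, Prod.smul_snd, smul_eq_mul]; ring
theorem dt_add_right (v w w' : ℤ × ℤ) : dt v (w + w') = dt v w + dt v w' := by
  unfold dt; simp only [Prod.fst_add, Prod.snd_add]; ring
theorem dt_add_left (v v' w : ℤ × ℤ) : dt (v + v') w = dt v w + dt v' w := by
  unfold dt; simp only [Prod.fst_add, Prod.snd_add]; ring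

/-- The number `k` with `k² + 3 k + 1 = nm v * nm w` attached to an adjacent pair. -/
def kk (v w : ℤ × ℤ) : ℤ := v.1 * w.1 + v.2 * w.2 + 3 * w.1 * v.2

theorem kk_eq {v w : ℤ × ℤ} (h : dt v w = 1) : kk v w ^ 2 + 3 * kk v w + 1 = nm v * nm w := by
  unfold kk nm dt at *
  linear_combination (-(1 : ℤ) - (v.1 * w.2 - w.1 * v.2) - 3 * (v.1 * w.1 + v.2 * w.2 + 3 * w.1 * v.2)) * h

theorem kk_nonneg {v w : ℤ × ℤ} (hv : TP v) (hw : TP w) (h : dt v w = 1) : 0 ≤ kk v w := by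
  have h1 : pp v * qq w + qq v * pp w = 2 * kk v w + 3 * dt v w := by
    unfold pp qq kk dt
    push_cast
    have h1 := al_add_be
    have h2 := al_mul_be
    linear_combination ((v.1 : ℝ) * w.2 + v.2 * w.1) * h1 + 2 * (v.2 : ℝ) * w.2 * h2
  rw [h] at h1
  have h2 : 0 < pp v * qq w + qq v * pp w := by
    have := mul_pos hv.1 hw.2
    have := mul_pos hv.2 hw.1
    linarith
  rw [h1] at h2
  have h3 : 0 < 2 * kk v w + 3 := by
    have : (0 : ℝ) < ((2 * kk v w + 3 : ℤ) : ℝ) := by push_cast; push_cast at h2; linarith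
    exact_mod_cast this
  have h4 : kk v w ≠ -1 := by
    intro h5
    have h6 := kk_eq h
    rw [h5] at h6
    have := mul_pos hv.nm_pos hw.nm_pos
    omega
  omega

theorem kk_le {v w : ℤ × ℤ} (hv : TP v) (hw : TP w) (h : dt v w = 1) {X : ℝ} (hX : 0 ≤ X)
    (h1 : (nm v : ℝ) ≤ X) (h2 : (nm w : ℝ) ≤ X) : (kk v w : ℝ) ≤ X := by
  have h3 := kk_nonneg hv hw h
  have h4 : ((kk v w : ℝ)) ^ 2 + 3 * kk v w + 1 = nm v * nm w := by exact_mod_cast kk_eq h
  have h5 : (0 : ℝ) ≤ kk v w := by exact_mod_cast h3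
  have h6 : (0 : ℝ) < nm v := by exact_mod_cast hv.nm_pos
  have h7 : (0 : ℝ) < nm w := by exact_mod_cast hw.nm_pos
  have h8 : (nm v : ℝ) * nm w ≤ X * X := mul_le_mul h1 h2 h7.le hX
  nlinarith

end Pool.Agent.Lib.MP_d57abb_nt
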