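import Pool.Agent.Lib.MP_d57abb_nt.Minus

/-!
# The value `1`: triangles of the Farey tessellation
-/

open Real

namespace Pool.Agent.Lib.MP_d57abb_nt

variable {g : ℕ → ℤ}

theorem sum_inv_sq_le : ∀ Q : ℕ, 2 ≤ Q → ∑ d ∈ Finset.Icc 2 Q, (1 : ℝ) / (d : ℝ) ^ 2 ≤ 3 / 4 - 1 / Q := by
  intro Q hQ
  induction Q, hQ using Nat.le_induction with
  | base => norm_num
  | succ n hn ih =>
    rw [Finset.sum_Icc_succ_top (by omega)]
    have hn0 : (0 : ℝ) < n := by exact_mod_cast (by omega : 0 < n)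
    have h1 : (1 : ℝ) / ((n + 1 : ℕ) : ℝ) ^ 2 ≤ 1 / n - 1 / ((n + 1 : ℕ) : ℝ) := by
      push_cast
      rw [div_sub_div _ _ hn0.ne' (by positivity), div_le_div_iff₀ (by positivity) (by positivity)]
      nlinarith
    linarith

/-- coprime pairs -/
def Pr (Q : ℕ) : Finset (ℕ × ℕ) :=
  ((Finset.Icc 1 Q) ×ˢ (Finset.Icc 1 Q)).filter (fun p => Nat.Coprime p.1 p.2)

theorem card_Pr {Q : ℕ} (hQ : 2 ≤ Q) : (Q : ℝ) ^ 2 / 4 ≤ (Pr Q).card := by
  have hsub : (Finset.Icc 1 Q) ×ˢ (Finset.Icc 1 Q) ⊆ Pr Q ∪ (Finset.Icc 2 Q).biUnion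
      (fun d => ((Finset.Icc 1 (Q / d)) ×ˢ (Finset.Icc 1 (Q / d))).image (fun p => (d * p.1, d * p.2))) := by
    intro p hp
    rw [Finset.mem_product, Finset.mem_Icc, Finset.mem_Icc] at hp
    by_cases hc : Nat.Coprime p.1 p.2
    · exact Finset.mem_union_left _ (Finset.mem_filter.mpr ⟨by
        rw [Finset.mem_product, Finset.mem_Icc, Finset.mem_Icc]; exact hp, hc⟩)
    · apply Finset.mem_union_right
      rw [Finset.mem_biUnion]
      set d := Nat.gcd p.1 p.2 with hd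
      have hd0 : 0 < d := Nat.gcd_pos_of_pos_left _ (by omega)
      have hd1 : d ≠ 1 := hc
      have hdvd1 : d ∣ p.1 := Nat.gcd_dvd_left _ _
      have hdvd2 : d ∣ p.2 := Nat.gcd_dvd_right _ _
      have hdle : d ≤ Q := (Nat.le_of_dvd (by omega) hdvd1).trans hp.1.2
      refine ⟨d, Finset.mem_Icc.mpr ⟨by omega, hdle⟩, ?_⟩
      rw [Finset.mem_image]
      refine ⟨(p.1 / d, p.2 / d), ?_, ?_⟩
      · rw [Finset.mem_product, Finset.mem_Icc, Finset.mem_Icc]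
        exact ⟨⟨Nat.div_pos (Nat.le_of_dvd (by omega) hdvd1) hd0, Nat.div_le_div_right hp.1.2⟩,
          ⟨Nat.div_pos (Nat.le_of_dvd (by omega) hdvd2) hd0, Nat.div_le_div_right hp.2.2⟩⟩
      · ext
        · exact Nat.mul_div_cancel' hdvd1
        · exact Nat.mul_div_cancel' hdvd2
  have h1 := Finset.card_le_card hsub
  have h2 := h1.trans (Finset.card_union_le _ _)
  have h3 : (((Finset.Icc 2 Q).biUnion
      (fun d => ((Finset.Icc 1 (Q / d)) ×ˢ (Finset.Icc 1 (Q / d))).image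
        (fun p : ℕ × ℕ => (d * p.1, d * p.2)))).card : ℝ) ≤ (Q : ℝ) ^ 2 * (3 / 4) := by
    have h4 : ((Finset.Icc 2 Q).biUnion
      (fun d => ((Finset.Icc 1 (Q / d)) ×ˢ (Finset.Icc 1 (Q / d))).image
        (fun p : ℕ × ℕ => (d * p.1, d * p.2)))).card ≤ ∑ d ∈ Finset.Icc 2 Q, (Q / d) * (Q / d) := by
      refine Finset.card_biUnion_le.trans (Finset.sum_le_sum fun d _ => ?_)
      refine Finset.card_image_le.trans ?_
      rw [Finset.card_product, Nat.card_Icc, Nat.add_sub_cancel]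
    have h5 : ((∑ d ∈ Finset.Icc 2 Q, (Q / d) * (Q / d) : ℕ) : ℝ) ≤
        ∑ d ∈ Finset.Icc 2 Q, (Q : ℝ) ^ 2 * (1 / (d : ℝ) ^ 2) := by
      push_cast
      apply Finset.sum_le_sum
      intro d hd
      have hd2 := (Finset.mem_Icc.mp hd).1
      have hd0 : (0 : ℝ) < d := by exact_mod_cast (by omega : 0 < d)
      have h6 : ((Q / d : ℕ) : ℝ) ≤ Q / d := Nat.cast_div_le
      calc ((Q / d : ℕ) : ℝ) * ((Q / d : ℕ) : ℝ) ≤ (Q / d) * (Q / d) := by gcongr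
        _ = (Q : ℝ) ^ 2 * (1 / (d : ℝ) ^ 2) := by field_simp
    have h7 : ∑ d ∈ Finset.Icc 2 Q, (Q : ℝ) ^ 2 * (1 / (d : ℝ) ^ 2) ≤ (Q : ℝ) ^ 2 * (3 / 4) := by
      rw [← Finset.mul_sum]
      apply mul_le_mul_of_nonneg_left _ (by positivity)
      have := sum_inv_sq_le Q hQ
      have : (0 : ℝ) ≤ 1 / Q := by positivity
      linarith
    calc _ ≤ ((∑ d ∈ Finset.Icc 2 Q, (Q / d) * (Q / d) : ℕ) : ℝ) := by exact_mod_cast h4
      _ ≤ _ := h5.trans h7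
  have h8 : ((Q * Q : ℕ) : ℝ) ≤ (Pr Q).card + (Q : ℝ) ^ 2 * (3 / 4) := by
    have h9 : Q * Q = ((Finset.Icc 1 Q) ×ˢ (Finset.Icc 1 Q)).card := by
      rw [Finset.card_product, Nat.card_Icc, Nat.add_sub_cancel]
    rw [h9]
    refine le_trans ?_ (add_le_add_right h3 _)
    exact_mod_cast h2
  push_cast at h8
  nlinarith

theorem TP_of_nonneg {a b : ℤ} (ha : 0 ≤ a) (hb : 0 ≤ b) (h : 0 < a + b) : TP (a, b) := by
  have hal : 0 < al := by linarith [al_lo]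
  have hbe : 0 < be := by linarith [be_lo]
  have ha' : (0 : ℝ) ≤ a := by exact_mod_cast ha
  have hb' : (0 : ℝ) ≤ b := by exact_mod_cast hb
  have hcase : 0 < a ∨ 0 < b := by omega
  constructor
  · unfold pp
    simp only
    rcases hcase with h | h
    · have : (0 : ℝ) < a := by exact_mod_cast h
      positivity
    · have : (0 : ℝ) < b := by exact_mod_cast h
      positivity
  · unfold qq
    simp only
    rcases hcase with h | h
    · have : (0 : ℝ) < a := by exact_mod_cast h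
      positivity
    · have : (0 : ℝ) < b := by exact_mod_cast h
      positivity

theorem an_range {a : ℤ × ℤ} (h1 : 1 ≤ a.1) (h2 : 0 ≤ a.2) : 0 ≤ an a ∧ an a < 2 * Real.log al := by
  have hal : 0 < al := by linarith [al_lo]
  have ha : TP a := TP_of_nonneg (by omega) h2 (by omega)
  have h1' : (1 : ℝ) ≤ a.1 := by exact_mod_cast h1
  have h2' : (0 : ℝ) ≤ a.2 := by exact_mod_cast h2
  constructor
  · rw [le_an_iff ha, Real.exp_zero, one_mul]
    unfold pp qq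
    have : be ≤ al := by linarith [be_hi, al_lo]
    nlinarith
  · unfold an
    rw [sub_lt_iff_lt_add, Real.log_lt_iff_lt_exp ha.1, Real.exp_add, Real.exp_log ha.2, two_mul,
      Real.exp_add, Real.exp_log hal]
    unfold pp qq
    have h3 : al * al * ((a.1 : ℝ) + a.2 * be) = al * al * a.1 + a.2 * al := by
      linear_combination (al * a.2) * al_mul_be
    rw [h3]
    have : 1 < al * al := by nlinarith [al_lo]
    nlinarith

/-- `u` is found from the adjacent pair `(a, b)` in the manner `c` -/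
def JJ (u : ℕ × ℕ) (x : Fin 3 × (Σ _ : ℕ, ℕ)) : Prop := ∃ a b : ℤ × ℤ, TP a ∧ TP b ∧ dt a b = 1 ∧
  kk a b = x.2.1 ∧ nm a = x.2.2 ∧ 1 ≤ a.1 ∧ 0 ≤ a.2 ∧
  (((u.1 : ℤ), (u.2 : ℤ)) : ℤ × ℤ) = if x.1 = 0 then a + b else if x.1 = 1 then b else a

theorem snd_of_fst {a b b' : ℤ × ℤ} (ha : TP a) (h : dt a b = 1) (h' : dt a b' = 1)
    (hk : kk a b = kk a b') : b = b' := by
  have e1 : pp a * qq b = pp a * qq b' := by rw [pp_mul_qq', pp_mul_qq', h, h', hk]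
  have e2 : qq a * pp b = qq a * pp b' := by rw [qq_mul_pp', qq_mul_pp', h, h', hk]
  exact ext_of (mul_left_cancel₀ ha.2.ne' e2) (mul_left_cancel₀ ha.1.ne' e1)

theorem JJ_inj {u u' : ℕ × ℕ} {x : Fin 3 × (Σ _ : ℕ, ℕ)} (h : JJ u x) (h' : JJ u' x) : u = u' := by
  obtain ⟨a, b, a1, a2, a3, a4, a5, a6, a7, a8⟩ := h
  obtain ⟨a', b', c1, c2, c3, c4, c5, c6, c7, c8⟩ := h'
  have r1 := an_range a6 a7
  have r2 := an_range c6 c7
  have haa : a = a' := by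
    refine uniq a1 a2 c1 c2 a3 c3 (by rw [a4, c4]) (by rw [a5, c5]) ?_
    rw [abs_lt]
    constructor <;> linarith [r1.1, r1.2, r2.1, r2.2]
  subst haa
  have hbb : b = b' := snd_of_fst a1 a3 c3 (by rw [a4, c4])
  subst hbb
  have : (((u.1 : ℤ), (u.2 : ℤ)) : ℤ × ℤ) = ((u'.1 : ℤ), (u'.2 : ℤ)) := by rw [a8, c8]
  rw [Prod.mk.injEq] at this
  ext
  · exact_mod_cast this.1
  · exact_mod_cast this.2

/-- the pairs `(k, u)` for the value `1`, with `k = 0` allowed -/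
def TQ (g : ℕ → ℤ) (M : ℕ) : Finset (Σ _ : ℕ, ℕ) :=
  ((Finset.Icc 0 M).filter (fun k => g (k ^ 2 + 3 * k + 1) = 1)).sigma
    (fun k => (k ^ 2 + 3 * k + 1).divisors)

theorem mem_TQ (hg : CM g) {a b : ℤ × ℤ} (ha : TP a) (hb : TP b) (hd : dt a b = 1)
    (hs : sg g a = sg g b) {M : ℕ} (h1 : nm a ≤ M) (h2 : nm b ≤ M) :
    ∃ p ∈ TQ g M, kk a b = p.1 ∧ nm a = p.2 := by
  obtain ⟨k, hk⟩ := Int.eq_ofNat_of_zero_le (kk_nonneg ha hb hd)
  obtain ⟨u, hu⟩ := Int.eq_ofNat_of_zero_le ha.nm_pos.le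
  obtain ⟨u', hu'⟩ := Int.eq_ofNat_of_zero_le hb.nm_pos.le
  have hf : k ^ 2 + 3 * k + 1 = u * u' := by
    have := kk_eq hd
    rw [hk, hu, hu'] at this
    exact_mod_cast this
  refine ⟨⟨k, u⟩, ?_, hk, hu⟩
  unfold TQ
  rw [Finset.mem_sigma]
  refine ⟨Finset.mem_filter.mpr ⟨Finset.mem_Icc.mpr ⟨Nat.zero_le _, ?_⟩, ?_⟩, ?_⟩
  · have := kk_le ha hb hd (X := (M : ℝ)) (by positivity) (by exact_mod_cast h1) (by exact_mod_cast h2)
    rw [hk] at this
    exact_mod_cast this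
  · simp only
    rw [hf, hg.mul]
    have e1 : sg g a = g u := by unfold sg; rw [hu]; simp
    have e2 : sg g b = g u' := by unfold sg; rw [hu']; simp
    rw [← e1, ← e2, ← hs]
    exact sg_mul_self hg ha
  · rw [Nat.mem_divisors]
    exact ⟨⟨u', hf⟩, by positivity⟩

theorem nm_le_sq {a b : ℤ} {Q : ℕ} (ha : 0 ≤ a) (hb : 0 ≤ b) (haQ : a ≤ Q) (hbQ : b ≤ Q) :
    nm (a, b) ≤ ((5 * Q ^ 2 : ℕ) : ℤ) := by
  unfold nm
  push_cast
  have h1 : a ^ 2 ≤ (Q : ℤ) ^ 2 := pow_le_pow_left₀ ha haQ 2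
  have h2 : b ^ 2 ≤ (Q : ℤ) ^ 2 := pow_le_pow_left₀ hb hbQ 2
  have h3 : a * b ≤ (Q : ℤ) * Q := mul_le_mul haQ hbQ hb (by positivity)
  nlinarith

theorem exists_JJ (hg : CM g) {Q : ℕ} {u : ℕ × ℕ} (hu : u ∈ Pr Q) :
    ∃ x ∈ (Finset.univ : Finset (Fin 3)) ×ˢ TQ g (5 * Q ^ 2), JJ u x := by
  obtain ⟨x, y⟩ := u
  unfold Pr at hu
  rw [Finset.mem_filter, Finset.mem_product, Finset.mem_Icc, Finset.mem_Icc] at hu
  obtain ⟨⟨⟨hx1, hxQ⟩, hy1, hyQ⟩, hcop⟩ := hu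
  simp only at hx1 hxQ hy1 hyQ hcop
  have hcop' : IsCoprime (x : ℤ) (y : ℤ) := Nat.isCoprime_iff_coprime.mpr hcop
  obtain ⟨a, b, hab⟩ := hcop'
  have hy0 : (0 : ℤ) < y := by exact_mod_cast hy1
  have hx0 : (0 : ℤ) < x := by exact_mod_cast hx1
  set q : ℤ := (-a) % y with hq
  have hq0 : 0 ≤ q := Int.emod_nonneg _ hy0.ne'
  have hqy : q < y := Int.emod_lt_of_pos _ hy0
  have hdvd : (y : ℤ) ∣ 1 + x * q := by
    have h1 : q = -a - y * (-a / y) := by rw [hq, Int.emod_def]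
    rw [h1]
    refine ⟨b - x * (-a / y), ?_⟩
    linear_combination -hab
  obtain ⟨p, hp⟩ := hdvd
  have hp1 : 1 ≤ p := by
    have : 0 < (y : ℤ) * p := by rw [← hp]; positivity
    have := (mul_pos_iff_of_pos_left hy0).mp this
    omega
  have hpx : p ≤ x := by
    by_contra hcon
    push Not at hcon
    have h1 : (y : ℤ) * (x + 1) ≤ y * p := mul_le_mul_of_nonneg_left (by omega) hy0.le
    have h2 : (x : ℤ) * q ≤ x * (y - 1) := mul_le_mul_of_nonneg_left (by omega) hx0.le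
    nlinarith
  -- the three vectors
  have hxQ' : (x : ℤ) ≤ Q := by exact_mod_cast hxQ
  have hyQ' : (y : ℤ) ≤ Q := by exact_mod_cast hyQ
  set v : ℤ × ℤ := (p, q) with hv
  set w : ℤ × ℤ := ((x : ℤ) - p, (y : ℤ) - q) with hw
  set u : ℤ × ℤ := ((x : ℤ), (y : ℤ)) with hu
  have tv' : TP v := TP_of_nonneg (by omega) hq0 (by omega)
  have tw : TP w := TP_of_nonneg (by omega) (by omega) (by omega)
  have tu : TP u := TP_of_nonneg (by omega) (by omega) (by omega)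
  have d1 : dt v w = 1 := by simp only [dt, hv, hw]; linarith
  have d2 : dt v u = 1 := by simp only [dt, hv, hu]; linarith
  have d3 : dt u w = 1 := by simp only [dt, hu, hw]; linarith
  have n1 : nm v ≤ ((5 * Q ^ 2 : ℕ) : ℤ) := nm_le_sq (by omega) hq0 (by omega) (by omega)
  have n2 : nm w ≤ ((5 * Q ^ 2 : ℕ) : ℤ) := nm_le_sq (by omega) (by omega) (by omega) (by omega)
  have n3 : nm u ≤ ((5 * Q ^ 2 : ℕ) : ℤ) := nm_le_sq (by omega) (by omega) (by omega) (by omega)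
  have huvw : u = v + w := by
    simp only [hu, hv, hw, Prod.mk_add_mk]
    congr 1 <;> ring
  have hcases : sg g v = sg g w ∨ sg g v = sg g u ∨ sg g u = sg g w := by
    rcases sg_val hg tv' with h1 | h1 <;> rcases sg_val hg tw with h2 | h2 <;>
      rcases sg_val hg tu with h3 | h3 <;> rw [h1, h2, h3] <;> norm_num
  rcases hcases with h | h | h
  · obtain ⟨⟨k, n⟩, hm, e1, e2⟩ := mem_TQ hg tv' tw d1 h n1 n2
    refine ⟨(0, ⟨k, n⟩), Finset.mem_product.mpr ⟨Finset.mem_univ _, hm⟩, v, w, tv', tw, d1, e1, e2,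
      hp1, hq0, ?_⟩
    rw [if_pos rfl]; exact huvw
  · obtain ⟨⟨k, n⟩, hm, e1, e2⟩ := mem_TQ hg tv' tu d2 h n1 n3
    refine ⟨(1, ⟨k, n⟩), Finset.mem_product.mpr ⟨Finset.mem_univ _, hm⟩, v, u, tv', tu, d2, e1, e2,
      hp1, hq0, ?_⟩
    rw [if_neg (show (1 : Fin 3) ≠ 0 by decide), if_pos rfl]
  · obtain ⟨⟨k, n⟩, hm, e1, e2⟩ := mem_TQ hg tu tw d3 h n3 n2
    refine ⟨(2, ⟨k, n⟩), Finset.mem_product.mpr ⟨Finset.mem_univ _, hm⟩, u, w, tu, tw, d3, e1, e2,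
      (by simp only [hu]; omega), (by simp only [hu]; omega), ?_⟩
    rw [if_neg (show (2 : Fin 3) ≠ 0 by decide), if_neg (show (2 : Fin 3) ≠ 1 by decide)]

/-- the pairs `(k, u)` for the value `1` -/
def TR (g : ℕ → ℤ) (M : ℕ) : Finset (Σ _ : ℕ, ℕ) :=
  (FF g 1 M).sigma (fun k => (k ^ 2 + 3 * k + 1).divisors)

theorem card_TQ (g : ℕ → ℤ) (M : ℕ) : (TQ g M).card ≤ (TR g M).card + 1 := by
  have hsub : TQ g M ⊆ TR g M ∪ {⟨0, 1⟩} := by
    rintro ⟨k, u⟩ h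
    unfold TQ at h
    rw [Finset.mem_sigma, Finset.mem_filter, Finset.mem_Icc] at h
    obtain ⟨⟨⟨_, h1⟩, h2⟩, h3⟩ := h
    rcases Nat.eq_zero_or_pos k with h0 | h0
    · apply Finset.mem_union_right
      simp only at h0 h3
      subst h0
      simp at h3
      rw [h3]; simp
    · apply Finset.mem_union_left
      unfold TR FF
      rw [Finset.mem_sigma, Finset.mem_filter, Finset.mem_Icc]
      exact ⟨⟨⟨h0, h1⟩, h2⟩, h3⟩
  refine (Finset.card_le_card hsub).trans ((Finset.card_union_le _ _).trans ?_)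
  simp

theorem card_Pr_le (hg : CM g) (Q : ℕ) : (Pr Q).card ≤ 3 * ((TR g (5 * Q ^ 2)).card + 1) := by
  have h1 : (Pr Q).card ≤ ((Finset.univ : Finset (Fin 3)) ×ˢ TQ g (5 * Q ^ 2)).card := by
    apply Finset.card_le_card_of_forall_subsingleton JJ
    · intro u hu
      obtain ⟨x, hx, hJ⟩ := exists_JJ hg hu
      exact ⟨x, hx, hJ⟩
    · intro x _ u hu u' hu'
      exact JJ_inj hu.2 hu'.2
  refine h1.trans ?_
  rw [Finset.card_product, Finset.card_univ, Fintype.card_fin]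
  exact Nat.mul_le_mul_left _ (card_TQ g _)

theorem TR_mono (g : ℕ → ℤ) {M M' : ℕ} (h : M ≤ M') : (TR g M).card ≤ (TR g M').card := by
  apply Finset.card_le_card
  unfold TR FF
  apply Finset.sigma_mono
  · apply Finset.filter_subset_filter
    exact Finset.Icc_subset_Icc_right h
  · intro i; exact Finset.Subset.refl _

theorem plus (hg : CM g) {ε : ℝ} (hε : 0 < ε) :
    ∃ N₀ : ℕ, ∀ N ≥ N₀, (N : ℝ) ^ (1 - ε) ≤ (FF g 1 N).card := by
  obtain ⟨m, hm⟩ := exists_nat_gt (4 / ε)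
  have hm0 : (0 : ℝ) < m := lt_trans (by positivity) hm
  have hm1 : 0 < m := by exact_mod_cast hm0
  refine from_pairs (T := fun M => (TR g M).card) (F := fun N => (FF g 1 N).card) (r := 2 * m)
    (a := 1) (by norm_num) (C := 24) (by norm_num) ?_ (fun M M' h => TR_mono g h) ?_ hε ?_
  · intro K hK
    have hK1 : 24 ≤ K := by exact_mod_cast hK
    have hQ : 24 ≤ K ^ m := le_trans hK1 (Nat.le_self_pow hm1.ne' K)
    have h1 := card_Pr (Q := K ^ m) (by omega)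
    have h2 := card_Pr_le hg (K ^ m)
    have h3 : ((Pr (K ^ m)).card : ℝ) ≤ 3 * ((TR g (5 * (K ^ m) ^ 2)).card + 1) := by exact_mod_cast h2
    have h4 : TR g (5 * (K ^ m) ^ 2) = TR g (5 * K ^ (2 * m)) := by
      rw [← pow_mul, mul_comm m 2]
    have h5 : (TR g (5 * (K ^ m) ^ 2)).card ≤ (TR g ⌊(24 : ℝ) * (K : ℝ) ^ (2 * m + 1)⌋₊).card := by
      rw [h4]
      apply TR_mono
      apply Nat.le_floor
      push_cast
      have h6 : (1 : ℝ) ≤ K := by exact_mod_cast (by omega : 1 ≤ K)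
      calc (5 : ℝ) * (K : ℝ) ^ (2 * m) ≤ 24 * (K : ℝ) ^ (2 * m) := by gcongr; norm_num
        _ ≤ 24 * (K : ℝ) ^ (2 * m + 1) := by gcongr; omega
    have h6 : ((TR g (5 * (K ^ m) ^ 2)).card : ℝ) ≤ (TR g ⌊(24 : ℝ) * (K : ℝ) ^ (2 * m + 1)⌋₊).card := by
      exact_mod_cast h5
    have h7 : (24 : ℝ) ≤ (K : ℝ) ^ m := by exact_mod_cast hQ
    push_cast at h1
    have h8 : (K : ℝ) ^ (2 * m) = ((K : ℝ) ^ m) ^ 2 := by rw [← pow_mul, mul_comm]
    rw [h8]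
    nlinarith
  · intro δ hδ
    obtain ⟨D, hD1, hD⟩ := Pool.Agent.Lib.MP_2a816b_nt.divisor_bound δ hδ
    refine ⟨D, hD1, fun N _ => ?_⟩
    apply card_sigma_le (FF g 1 N) _ hδ hD hD1
    intro k hk
    exact Finset.mem_Icc.mp (Finset.mem_filter.mp hk).1
  · rw [div_le_iff₀ (by positivity)]
    rw [div_lt_iff₀ hε] at hm
    push_cast
    nlinarith

/-- **Both values.** -/
theorem both (hg : CM g) {k₀ : ℕ} {ε : ℝ} (hε : 0 < ε) :
    ∃ N₀ : ℕ, ∀ N ≥ N₀, (N : ℝ) ^ (1 - ε) ≤ (FF g (g (k₀ ^ 2 + 3 * k₀ + 1)) N).card := by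
  rcases hg.val (k₀ ^ 2 + 3 * k₀ + 1) (by positivity) with h | h
  · rw [h]; exact plus hg hε
  · rw [h]; exact minus hg h hε

end Pool.Agent.Lib.MP_d57abb_nt
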