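import Pool.Agent.Lib.MP_d57abb_nt.Basic

/-!
# An adjacent pair is determined by `k`, the norm of its first member and a window of angles
-/

open Real

namespace Pool.Agent.Lib.MP_d57abb_nt

theorem ext_of {v v' : ℤ × ℤ} (h1 : pp v = pp v') (h2 : qq v = qq v') : v = v' := by
  have h3 : ((v.2 : ℝ) - v'.2) * √5 = 0 := by
    rw [← al_sub_be]
    unfold pp at h1
    unfold qq at h2
    linear_combination h1 - h2
  have h4 : √5 ≠ 0 := by
    have := sqrt5_lo
    intro h; rw [h] at this; norm_num at this
  have h5 : (v.2 : ℝ) = v'.2 := by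
    rcases mul_eq_zero.mp h3 with h | h
    · linarith
    · exact absurd h h4
  have h6 : (v.1 : ℝ) = v'.1 := by
    unfold pp at h1
    rw [h5] at h1
    linarith
  ext
  · exact_mod_cast h6
  · exact_mod_cast h5

theorem pp_mul_qq' (v w : ℤ × ℤ) :
    pp v * qq w = (kk v w : ℝ) + 3 * dt v w - dt v w * al := by
  unfold pp qq kk dt
  push_cast
  have h1 := al_add_be
  have h2 := al_mul_be
  have h3 : be = 3 - al := by linarith
  have h4 : al * be = 1 := h2
  linear_combination ((v.2 : ℝ) * w.2) * h4 + ((v.1 : ℝ) * w.2) * h3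

theorem qq_mul_pp' (v w : ℤ × ℤ) :
    qq v * pp w = (kk v w : ℝ) + 3 * dt v w - dt v w * be := by
  unfold pp qq kk dt
  push_cast
  have h1 := al_add_be
  have h2 := al_mul_be
  have h3 : al = 3 - be := by linarith
  linear_combination ((v.2 : ℝ) * w.2) * h2 + ((v.1 : ℝ) * w.2) * h3

theorem uniq {v w v' w' : ℤ × ℤ} (hv : TP v) (hw : TP w) (hv' : TP v') (hw' : TP w')
    (h : dt v w = 1) (h' : dt v' w' = 1) (hk : kk v w = kk v' w') (hn : nm v = nm v')
    (hang : |an v - an v'| < 2 * Real.log al) : v = v' := by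
  have e1 : pp v * qq w = pp v' * qq w' := by rw [pp_mul_qq', pp_mul_qq', h, h', hk]
  have e2 : qq v * pp w = qq v' * pp w' := by rw [qq_mul_pp', qq_mul_pp', h, h', hk]
  have e3 : pp v * qq v = pp v' * qq v' := by rw [pp_mul_qq, pp_mul_qq, hn]
  obtain ⟨a1, a2⟩ := hv
  obtain ⟨b1, b2⟩ := hw
  obtain ⟨a1', a2'⟩ := hv'
  obtain ⟨b1', b2'⟩ := hw'
  set ε : ℤ × ℤ := (w.2 * v'.1 - v.2 * w'.1, w.2 * v'.2 - v.2 * w'.2) with hε
  have f1 : pp ε = w.2 * pp v' - v.2 * pp w' := by
    unfold pp; simp only [hε]; push_cast; ring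
  have f2 : qq ε = w.2 * qq v' - v.2 * qq w' := by
    unfold qq; simp only [hε]; push_cast; ring
  have hdr : (v.1 : ℝ) * w.2 - w.1 * v.2 = 1 := by
    have : ((dt v w : ℤ) : ℝ) = 1 := by rw [h]; norm_num
    unfold dt at this; push_cast at this; exact this
  -- pp w' * pp v = pp w * pp v'
  have g1 : pp w' * pp v = pp w * pp v' := by
    have : (pp w' * pp v) * (qq v * qq v') = (pp w * pp v') * (qq v * qq v') := by
      calc (pp w' * pp v) * (qq v * qq v') = (qq v' * pp w') * (pp v * qq v) := by ring
        _ = (qq v * pp w) * (pp v' * qq v') := by rw [← e2, e3]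
        _ = _ := by ring
    exact mul_right_cancel₀ (by positivity) this
  have g2 : qq w' * qq v = qq w * qq v' := by
    have : (qq w' * qq v) * (pp v * pp v') = (qq w * qq v') * (pp v * pp v') := by
      calc (qq w' * qq v) * (pp v * pp v') = (pp v' * qq w') * (pp v * qq v) := by ring
        _ = (pp v * qq w) * (pp v' * qq v') := by rw [← e1, e3]
        _ = _ := by ring
    exact mul_right_cancel₀ (by positivity) this
  have r1 : pp ε * pp v = pp v' := by
    rw [f1]
    have : (w.2 : ℝ) * pp v - v.2 * pp w = 1 := by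
      unfold pp; linear_combination hdr
    linear_combination (-(v.2 : ℝ)) * g1 + pp v' * this
  have r2 : qq ε * qq v = qq v' := by
    rw [f2]
    have : (w.2 : ℝ) * qq v - v.2 * qq w = 1 := by
      unfold qq; linear_combination hdr
    linear_combination (-(v.2 : ℝ)) * g2 + qq v' * this
  have p1 : 0 < pp ε := by
    have : 0 < pp ε * pp v := by rw [r1]; exact a1'
    exact (mul_pos_iff_of_pos_right a1).mp this
  have p2 : 0 < qq ε := by
    have : 0 < qq ε * qq v := by rw [r2]; exact a2'
    exact (mul_pos_iff_of_pos_right a2).mp this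
  have p3 : pp ε * qq ε = 1 := by
    have : (pp ε * qq ε) * (pp v * qq v) = 1 * (pp v * qq v) := by
      calc (pp ε * qq ε) * (pp v * qq v) = (pp ε * pp v) * (qq ε * qq v) := by ring
        _ = 1 * (pp v * qq v) := by rw [r1, r2, e3]; ring
    exact mul_right_cancel₀ (by positivity) this
  have p4 : pp ε + qq ε = ((2 * ε.1 + 3 * ε.2 : ℤ) : ℝ) := by
    unfold pp qq; push_cast
    linear_combination (ε.2 : ℝ) * al_add_be
  rcases le_or_gt (2 * ε.1 + 3 * ε.2) 2 with h2 | h3
  · have h4 : pp ε + qq ε ≤ 2 := by rw [p4]; exact_mod_cast h2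
    have h5 : (pp ε - qq ε) ^ 2 ≤ 0 := by nlinarith
    have h6 : pp ε = qq ε := by nlinarith [sq_nonneg (pp ε - qq ε)]
    have h7 : pp ε = 1 := by
      rw [← h6] at p3
      nlinarith
    have h8 : qq ε = 1 := by rw [← h6]; exact h7
    rw [h7, one_mul] at r1
    rw [h8, one_mul] at r2
    exact ext_of r1 r2
  · exfalso
    have h4 : 3 ≤ pp ε + qq ε := by
      rw [p4]; exact_mod_cast h3
    have h5 : an v' - an v = 2 * Real.log (pp ε) := by
      unfold an
      rw [← r1, ← r2, Real.log_mul p1.ne' a1.ne', Real.log_mul p2.ne' a2.ne']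
      have h6 : Real.log (pp ε) + Real.log (qq ε) = 0 := by
        rw [← Real.log_mul p1.ne' p2.ne', p3, Real.log_one]
      linarith
    have hal : 0 < al := by linarith [al_lo]
    have hbe : 0 < be := by linarith [be_lo]
    have h6 : 0 ≤ (pp ε - al) * (pp ε - be) := by
      have h7 : (pp ε - al) * (pp ε - be) = pp ε * (pp ε + qq ε - 3) := by
        have h8 := al_add_be
        have h9 := al_mul_be
        linear_combination (-pp ε) * h8 + h9 - p3
      rw [h7]
      exact mul_nonneg p1.le (by linarith)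
    have h7 : al ≤ pp ε ∨ pp ε ≤ be := by
      by_contra hcon
      push Not at hcon
      have : (pp ε - al) * (pp ε - be) < 0 :=
        mul_neg_of_neg_of_pos (by linarith [hcon.1]) (by linarith [hcon.2])
      linarith
    rw [abs_sub_comm, abs_lt] at hang
    rcases h7 with h7 | h7
    · have := Real.log_le_log hal h7
      linarith [hang.2]
    · have h8 := Real.log_le_log p1 h7
      have h9 : Real.log be = - Real.log al := by
        have : Real.log al + Real.log be = 0 := by
          rw [← Real.log_mul hal.ne' hbe.ne', al_mul_be, Real.log_one]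
        linarith
      linarith [hang.1]

end Pool.Agent.Lib.MP_d57abb_nt
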