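import Pool.Agent.Lib.MP_d57abb_nt.Count
import Pool.Agent.Lib.MP_2a816b_nt.Divisor

/-!
# The value `-1` is taken at least `N ^ (1 - ε)` times
-/

open Real

namespace Pool.Agent.Lib.MP_d57abb_nt

variable {g : ℕ → ℤ}

theorem TT_mono (g : ℕ → ℤ) {M M' : ℕ} (h : M ≤ M') : (TT g M).card ≤ (TT g M').card := by
  apply Finset.card_le_card
  unfold TT
  apply Finset.sigma_mono
  · apply Finset.filter_subset_filter
    exact Finset.Icc_subset_Icc_right h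
  · intro i; exact Finset.Subset.refl _

theorem nm_lt (j : ℕ) : nm ((j : ℤ), 1) = (j : ℤ) ^ 2 + 3 * j + 1 := by
  unfold nm; ring

theorem count2 (hg : CM g) {ρ : ℤ × ℤ} (hρ : TP ρ) (hs : sg g ρ = -1) (h0 : 0 ≤ an ρ)
    (h1 : an ρ ≤ 1 / 5) (R : ℕ) : ∃ C : ℝ, 1 ≤ C ∧ ∀ K : ℕ, C ≤ K →
      (K : ℝ) ^ R ≤ C * (TT g ⌊C * (K : ℝ) ^ (R + 4)⌋₊).card := by
  have hnρ : (1 : ℝ) ≤ nm ρ := by
    have := hρ.nm_pos
    exact_mod_cast (by omega : 1 ≤ nm ρ)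
  set c1 : ℝ := 2 ^ (R + 4) with hc1
  have hc1' : 1 ≤ c1 := one_le_pow₀ (by norm_num)
  set f : ℝ := (R.factorial : ℝ) with hf
  have hf1 : 1 ≤ f := by rw [hf]; exact Nat.one_le_cast.mpr (Nat.factorial_pos R)
  set C : ℝ := 15 * 2 ^ R + 120 * f + (R + 4) + 9600 * c1 * nm ρ + 120 * f * c1 with hC
  have h2R : (1 : ℝ) ≤ 2 ^ R := one_le_pow₀ (by norm_num)
  have t1 : 0 ≤ 9600 * c1 * nm ρ := by positivity
  have t2 : 0 ≤ 120 * f * c1 := by positivity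
  have t3 : (0 : ℝ) ≤ R := by positivity
  refine ⟨C, by rw [hC]; linarith, ?_⟩
  intro K hK
  have hK1 : 15 * 2 ^ R ≤ (K : ℝ) := by linarith
  have hK2 : 120 * f ≤ (K : ℝ) := by linarith
  have hK3 : (R : ℝ) + 4 ≤ K := by linarith
  have hKge1 : (1 : ℝ) ≤ K := by linarith
  have hKpos : 0 < K := by exact_mod_cast (by linarith : (0 : ℝ) < K)
  have hK' : (0 : ℝ) < K := by exact_mod_cast hKpos
  set η : ℝ := 6 * f / (K : ℝ) ^ (R + 1) with hη
  have hη0 : 0 < η := by positivity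
  have hηle : η ≤ 1 / 20 := by
    rw [hη, div_le_div_iff₀ (by positivity) (by norm_num)]
    have : (K : ℝ) ≤ (K : ℝ) ^ (R + 1) := le_self_pow₀ hKge1 (by omega)
    linarith
  have hτ : (2 : ℝ) ^ R * (3 / K) ≤ 1 / 5 := by
    rw [← mul_div_assoc, div_le_iff₀ hK']
    linarith
  obtain ⟨l, a1, a2, a3, a4, a5, a6, a7⟩ := word hg hρ hs h0 (by linarith) hKpos (R := R) R le_rfl
  set B : ℝ := 4 * nm ρ * (K : ℝ) ^ 2 with hB
  have hB1 : 1 ≤ B := by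
    have : 1 ≤ (K : ℝ) ^ 2 := one_le_pow₀ hKge1
    nlinarith
  have hl : ∀ x ∈ l, TP x.2 ∧ (nm x.2 : ℝ) ≤ B := by
    intro x hx
    rcases a1 x hx with h | ⟨j, hj, h⟩
    · rw [h]
      refine ⟨hρ, ?_⟩
      have : 1 ≤ (K : ℝ) ^ 2 := one_le_pow₀ hKge1
      nlinarith
    · rw [h]
      refine ⟨TP_lt j, ?_⟩
      rw [nm_lt]
      push_cast
      have h5 : (j : ℝ) ≤ K + R := by exact_mod_cast hj
      have h6 : (j : ℝ) + 2 ≤ 2 * K := by linarith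
      have h7 : (0 : ℝ) ≤ j := by positivity
      have h8 : ((j : ℝ) + 2) ^ 2 ≤ (2 * K) ^ 2 := pow_le_pow_left₀ (by linarith) h6 2
      have h9 : 0 ≤ (K : ℝ) ^ 2 := by positivity
      nlinarith
  have htot : |tot l| ≤ η := by
    rw [abs_of_nonneg a3]
    refine a5.trans ?_
    have := DD_le R hKpos
    rw [hη, show (6 : ℝ) * f / (K : ℝ) ^ (R + 1) = 2 * (3 * f / (K : ℝ) ^ (R + 1)) by ring]
    linarith
  have hm : (l.length : ℝ) + 1 ≤ c1 * K := by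
    have h5 : (l.length : ℝ) ≤ 2 ^ (R + 2) * (K + R + 4) := by exact_mod_cast a7
    have h6 : (2 : ℝ) ^ (R + 2) * (K + R + 4) ≤ 2 ^ (R + 2) * (2 * K) := by
      apply mul_le_mul_of_nonneg_left _ (by positivity)
      linarith
    have h7 : (1 : ℝ) ≤ 2 ^ (R + 2) * K := by
      have : (1 : ℝ) ≤ 2 ^ (R + 2) := one_le_pow₀ (by norm_num)
      nlinarith
    have h8 : c1 * K = 2 ^ (R + 2) * (2 * K) + 2 ^ (R + 2) * K + 2 ^ (R + 2) * K := by
      rw [hc1]; ring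
    linarith
  set y : ℝ := 360 * (c1 * K) / η with hy
  have hy1 : 1 ≤ y := by
    rw [hy, le_div_iff₀ hη0]
    nlinarith
  set n : ℕ := ⌈√y⌉₊ with hn
  have hsy : 1 ≤ √y := by rw [Real.one_le_sqrt]; exact hy1
  have hn1 : √y ≤ n := Nat.le_ceil _
  have hn2 : (n : ℝ) ≤ 2 * √y := by
    have := (Nat.ceil_lt_add_one (by linarith : 0 ≤ √y)).le
    linarith
  have hnpos : 0 < n := by
    have : (0 : ℝ) < n := by linarith
    exact_mod_cast this
  have hn' : (0 : ℝ) < n := by exact_mod_cast hnpos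
  have hny : y ≤ (n : ℝ) ^ 2 := by
    calc y = √y ^ 2 := (Real.sq_sqrt (by linarith)).symm
      _ ≤ (n : ℝ) ^ 2 := pow_le_pow_left₀ (by linarith) hn1 2
  have hny2 : (n : ℝ) ^ 2 ≤ 4 * y := by
    calc (n : ℝ) ^ 2 ≤ (2 * √y) ^ 2 := pow_le_pow_left₀ hn'.le hn2 2
      _ = 4 * y := by rw [mul_pow, Real.sq_sqrt (by linarith)]; norm_num
  have hcount := count hg hη0 hηle hB1 hnpos l hl a2 htot (by
    intro t ht
    obtain ⟨b1, b2⟩ := a6 t ht
    constructor <;> linarith)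
  set M := ⌊2 * (5 * (n : ℝ) ^ 2 * B)⌋₊ with hM
  have hMle : M ≤ ⌊C * (K : ℝ) ^ (R + 4)⌋₊ := by
    apply Nat.floor_le_floor
    have h5 : y * η = 360 * (c1 * K) := by rw [hy]; field_simp
    have h6 : η * (K : ℝ) ^ (R + 1) = 6 * f := by rw [hη]; field_simp
    have h7 : y ≤ 60 * c1 * (K : ℝ) ^ (R + 2) := by
      have h8 : y * (6 * f) = 360 * c1 * (K : ℝ) ^ (R + 2) := by
        rw [← h6]
        calc y * (η * (K : ℝ) ^ (R + 1)) = (y * η) * (K : ℝ) ^ (R + 1) := by ring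
          _ = 360 * c1 * (K : ℝ) ^ (R + 2) := by rw [h5]; ring
      have h9 : y * 6 ≤ y * (6 * f) := by
        apply mul_le_mul_of_nonneg_left _ (by linarith)
        linarith
      linarith
    calc 2 * (5 * (n : ℝ) ^ 2 * B) ≤ 2 * (5 * (4 * (60 * c1 * (K : ℝ) ^ (R + 2))) * B) := by
          gcongr
          linarith
      _ = 9600 * c1 * nm ρ * (K : ℝ) ^ (R + 4) := by rw [hB]; ring
      _ ≤ C * (K : ℝ) ^ (R + 4) := by
          apply mul_le_mul_of_nonneg_right _ (by positivity)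
          rw [hC]; linarith
  have hcard : ((TT g M).card : ℝ) ≤ (TT g ⌊C * (K : ℝ) ^ (R + 4)⌋₊).card := by
    exact_mod_cast TT_mono g hMle
  set T : ℝ := ((TT g ⌊C * (K : ℝ) ^ (R + 4)⌋₊).card : ℝ) with hT
  have hT0 : 0 ≤ T := by positivity
  have h5 : (3 / 10 : ℝ) ≤ (c1 * K) * (36 / (η * (n : ℝ) ^ 2) + 4 * η * T) := by
    refine hcount.trans ?_
    apply mul_le_mul hm _ (by positivity) (by positivity)
    have : 4 * η * ((TT g M).card : ℝ) ≤ 4 * η * T := mul_le_mul_of_nonneg_left hcard (by positivity)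
    linarith
  have h6 : (c1 * K) * (36 / (η * (n : ℝ) ^ 2)) ≤ 1 / 10 := by
    have h7 : η * y = 360 * (c1 * K) := by rw [hy]; field_simp
    have h8 : 360 * (c1 * K) ≤ η * (n : ℝ) ^ 2 := by
      rw [← h7]; exact mul_le_mul_of_nonneg_left hny hη0.le
    rw [← mul_div_assoc, div_le_iff₀ (by positivity)]
    linarith
  have h7 : (1 / 5 : ℝ) ≤ (c1 * K) * (4 * η * T) := by
    rw [mul_add] at h5; linarith
  have h8 : η * (K : ℝ) ^ (R + 1) = 6 * f := by rw [hη]; field_simp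
  have h9 : (K : ℝ) ^ R * (1 / 5) ≤ 24 * f * c1 * T := by
    have h10 : 0 < (K : ℝ) ^ R := by positivity
    calc (K : ℝ) ^ R * (1 / 5) ≤ (K : ℝ) ^ R * ((c1 * K) * (4 * η * T)) :=
          mul_le_mul_of_nonneg_left h7 h10.le
      _ = 4 * c1 * T * (η * (K : ℝ) ^ (R + 1)) := by ring
      _ = 24 * f * c1 * T := by rw [h8]; ring
  calc (K : ℝ) ^ R ≤ 120 * f * c1 * T := by linarith
    _ ≤ C * T := by
        apply mul_le_mul_of_nonneg_right _ hT0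
        rw [hC]; linarith

/-- the counting function -/
def FF (g : ℕ → ℤ) (σ : ℤ) (N : ℕ) : Finset ℕ :=
  (Finset.Icc 1 N).filter (fun k => g (k ^ 2 + 3 * k + 1) = σ)

theorem card_sigma_le (S : Finset ℕ) {N : ℕ} (hS : ∀ k ∈ S, 1 ≤ k ∧ k ≤ N) {δ D : ℝ} (hδ : 0 < δ)
    (hD : ∀ n : ℕ, 0 < n → (n.divisors.card : ℝ) ≤ D * (n : ℝ) ^ δ) (hD1 : 1 ≤ D) :
    ((S.sigma (fun k => (k ^ 2 + 3 * k + 1).divisors)).card : ℝ) ≤
      S.card * (D * (5 * (N : ℝ) ^ 2) ^ δ) := by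
  rw [Finset.card_sigma]
  push_cast
  calc ∑ k ∈ S, ((k ^ 2 + 3 * k + 1).divisors.card : ℝ)
      ≤ ∑ k ∈ S, D * (5 * (N : ℝ) ^ 2) ^ δ := by
        apply Finset.sum_le_sum
        intro k hk
        obtain ⟨h1, h2⟩ := hS k hk
        refine (hD _ (by positivity)).trans ?_
        apply mul_le_mul_of_nonneg_left _ (by linarith)
        apply Real.rpow_le_rpow (by positivity) _ hδ.le
        have h3 : (k : ℝ) ≤ N := by exact_mod_cast h2
        have h4 : (1 : ℝ) ≤ k := by exact_mod_cast h1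
        push_cast
        nlinarith
    _ = S.card * (D * (5 * (N : ℝ) ^ 2) ^ δ) := by rw [Finset.sum_const, nsmul_eq_mul]

/-- From counting pairs `(k, u)` to counting `k`: passing from an inequality with the parameter
`K` to all large `N`. -/
theorem from_pairs {T : ℕ → ℕ} {F : ℕ → ℕ} {r a : ℕ} (ha : 0 < a) {C : ℝ} (hC : 1 ≤ C)
    (hT : ∀ K : ℕ, C ≤ K → (K : ℝ) ^ r ≤ C * T ⌊C * (K : ℝ) ^ (r + a)⌋₊)
    (hmono : ∀ M M', M ≤ M' → T M ≤ T M')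
    (hTF : ∀ δ : ℝ, 0 < δ → ∃ D : ℝ, 1 ≤ D ∧ ∀ N : ℕ, 0 < N →
      (T N : ℝ) ≤ F N * (D * (5 * (N : ℝ) ^ 2) ^ δ))
    {ε : ℝ} (hε : 0 < ε) (har : (a : ℝ) / (r + a) ≤ ε / 4) :
    ∃ N₀ : ℕ, ∀ N ≥ N₀, (N : ℝ) ^ (1 - ε) ≤ F N := by
  obtain ⟨D, hD1, hD⟩ := hTF (ε / 16) (by positivity)
  have hra : (0 : ℝ) < (r : ℝ) + a := by
    have : (0 : ℝ) < a := by exact_mod_cast ha
    positivity
  have hC0 : 0 < C := by linarith
  set E : ℝ := C * 2 ^ r * C * (D * 5 ^ (ε / 16)) with hE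
  have hE0 : 0 < E := by positivity
  have ht1 : Filter.Tendsto (fun N : ℕ => ((N : ℝ) / C) ^ (1 / ((r : ℝ) + a))) Filter.atTop
      Filter.atTop := by
    apply (tendsto_rpow_atTop (by positivity)).comp
    exact tendsto_natCast_atTop_atTop.atTop_div_const hC0
  have ht2 : Filter.Tendsto (fun N : ℕ => (N : ℝ) ^ (5 * ε / 8)) Filter.atTop Filter.atTop :=
    (tendsto_rpow_atTop (by positivity)).comp tendsto_natCast_atTop_atTop
  have hev := (ht1.eventually_ge_atTop (C + 2)).and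
    ((ht2.eventually_ge_atTop E).and (Filter.eventually_ge_atTop 1))
  obtain ⟨N₀, hN₀⟩ := Filter.eventually_atTop.mp hev
  refine ⟨N₀, fun N hN => ?_⟩
  obtain ⟨e1, e2, e3⟩ := hN₀ N hN
  have hN1 : (1 : ℝ) ≤ N := by exact_mod_cast e3
  have hN0 : (0 : ℝ) < N := by linarith
  set y : ℝ := ((N : ℝ) / C) ^ (1 / ((r : ℝ) + a)) with hy
  have hy0 : 0 < y := by linarith
  have hypow : y ^ (r + a) = N / C := by
    rw [hy, ← Real.rpow_natCast, ← Real.rpow_mul (by positivity)]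
    push_cast
    rw [one_div, inv_mul_cancel₀ hra.ne', Real.rpow_one]
  set K : ℕ := ⌊y⌋₊ with hK
  have hKy : (K : ℝ) ≤ y := Nat.floor_le hy0.le
  have hKy2 : y - 1 ≤ K := by
    have := Nat.lt_floor_add_one y
    linarith
  have hKhalf : y / 2 ≤ K := by linarith
  have hKC : C ≤ K := by linarith
  have hMN : ⌊C * (K : ℝ) ^ (r + a)⌋₊ ≤ N := by
    apply Nat.floor_le_of_le
    calc C * (K : ℝ) ^ (r + a) ≤ C * y ^ (r + a) := by gcongr
      _ = N := by rw [hypow]; field_simp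
  have h1 : (K : ℝ) ^ r ≤ C * T N := by
    refine (hT K hKC).trans ?_
    apply mul_le_mul_of_nonneg_left _ hC0.le
    exact_mod_cast hmono _ _ hMN
  have h2 : (T N : ℝ) ≤ F N * (D * (5 * (N : ℝ) ^ 2) ^ (ε / 16)) := hD N (by omega)
  have h3 : (5 * (N : ℝ) ^ 2) ^ (ε / 16) = 5 ^ (ε / 16) * (N : ℝ) ^ (ε / 8) := by
    rw [Real.mul_rpow (by norm_num) (by positivity), ← Real.rpow_natCast, ← Real.rpow_mul hN0.le]
    congr 2
    push_cast; ring
  have h4 : (y / 2) ^ r ≤ (K : ℝ) ^ r := pow_le_pow_left₀ (by positivity) hKhalf r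
  have h5 : y ^ a ≤ (N : ℝ) ^ (ε / 4) := by
    rw [hy, ← Real.rpow_natCast, ← Real.rpow_mul (by positivity)]
    have e4 : (N : ℝ) / C ≤ N := div_le_self hN0.le hC
    calc ((N : ℝ) / C) ^ (1 / ((r : ℝ) + a) * (a : ℕ)) ≤ (N : ℝ) ^ (1 / ((r : ℝ) + a) * (a : ℕ)) :=
          Real.rpow_le_rpow (by positivity) e4 (by positivity)
      _ ≤ (N : ℝ) ^ (ε / 4) := by
          apply Real.rpow_le_rpow_of_exponent_le hN1
          calc 1 / ((r : ℝ) + a) * (a : ℕ) = (a : ℝ) / (r + a) := by ring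
            _ ≤ ε / 4 := har
  -- N ≤ C 2^r y^a K^r
  have h6 : (N : ℝ) ≤ C * 2 ^ r * (N : ℝ) ^ (ε / 4) * (K : ℝ) ^ r := by
    calc (N : ℝ) = C * y ^ (r + a) := by rw [hypow]; field_simp
      _ = C * 2 ^ r * y ^ a * (y / 2) ^ r := by
          rw [div_pow, pow_add]; field_simp
      _ ≤ C * 2 ^ r * (N : ℝ) ^ (ε / 4) * (K : ℝ) ^ r := by gcongr
  have h7 : (N : ℝ) ≤ E * (N : ℝ) ^ (3 * ε / 8) * F N := by
    calc (N : ℝ) ≤ C * 2 ^ r * (N : ℝ) ^ (ε / 4) * (K : ℝ) ^ r := h6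
      _ ≤ C * 2 ^ r * (N : ℝ) ^ (ε / 4) * (C * (F N * (D * (5 ^ (ε / 16) * (N : ℝ) ^ (ε / 8))))) := by
          apply mul_le_mul_of_nonneg_left _ (by positivity)
          refine h1.trans ?_
          apply mul_le_mul_of_nonneg_left _ hC0.le
          rw [← h3]; exact h2
      _ = E * ((N : ℝ) ^ (ε / 4) * (N : ℝ) ^ (ε / 8)) * F N := by rw [hE]; ring
      _ = E * (N : ℝ) ^ (3 * ε / 8) * F N := by
          rw [← Real.rpow_add hN0]
          congr 3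
          ring
  have h8 : (N : ℝ) ^ (1 - ε) * (E * (N : ℝ) ^ (3 * ε / 8)) ≤ N := by
    calc (N : ℝ) ^ (1 - ε) * (E * (N : ℝ) ^ (3 * ε / 8))
        ≤ (N : ℝ) ^ (1 - ε) * ((N : ℝ) ^ (5 * ε / 8) * (N : ℝ) ^ (3 * ε / 8)) := by
          gcongr
      _ = N := by
          rw [← Real.rpow_add hN0, ← Real.rpow_add hN0]
          conv_rhs => rw [← Real.rpow_one (N : ℝ)]
          congr 1
          ring
  have h9 : 0 < E * (N : ℝ) ^ (3 * ε / 8) := by positivity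
  nlinarith [h8, h7, h9]

theorem card_TT_le (g : ℕ → ℤ) (δ : ℝ) (hδ : 0 < δ) : ∃ D : ℝ, 1 ≤ D ∧ ∀ N : ℕ, 0 < N →
    ((TT g N).card : ℝ) ≤ (FF g (-1) N).card * (D * (5 * (N : ℝ) ^ 2) ^ δ) := by
  obtain ⟨D, hD1, hD⟩ := Pool.Agent.Lib.MP_2a816b_nt.divisor_bound δ hδ
  refine ⟨D, hD1, fun N _ => ?_⟩
  apply card_sigma_le (FF g (-1) N) _ hδ hD hD1
  intro k hk
  exact Finset.mem_Icc.mp (Finset.mem_filter.mp hk).1

end Pool.Agent.Lib.MP_d57abb_nt
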