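import Mathlib

/-!
# Sign changes of `g (k² + 3 k + 1)`: combinatorics

`s k = g (k² + 3 k + 1)` satisfies `s (r² + 2 r - 2) = s (r - 1) s r`.
-/

set_option autoImplicit false

namespace Pool.Agent.Lib.MP_d57abb_nt.Chg

/-- first change to the right of an index with value `-1` -/
lemma exists_change {s : ℕ → ℤ} (hs : ∀ k, s k = 1 ∨ s k = -1) {a b : ℕ} (hab : a ≤ b)
    (ha : s a = -1) (hb : s b = 1) : ∃ t, a ≤ t ∧ t < b ∧ s t = -1 ∧ s (t + 1) = 1 := by
  induction b, hab using Nat.le_induction with
  | base => rw [ha] at hb; exact absurd hb (by norm_num)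
  | succ b hab ih =>
      rcases hs b with h | h
      · obtain ⟨t, h1, h2, h3⟩ := ih h
        exact ⟨t, h1, by omega, h3⟩
      · exact ⟨b, hab, by omega, h, hb⟩

/-- the number of indices with value `-1` is at most `2 (2 √(N+2) + 1)` times the number of changes -/
lemma count_le {s : ℕ → ℤ} (hs : ∀ k, s k = 1 ∨ s k = -1)
    (hrel : ∀ r, s ((r + 1) ^ 2 + 2 * (r + 1) - 2) = s r * s (r + 1)) (n N : ℕ)
    (hN : n + 2 * Nat.sqrt (n + 2) + 2 ≤ N) :
    ((Finset.Icc 1 n).filter (fun k => s k = -1)).card ≤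
      (2 * Nat.sqrt (n + 2) + 1) * (2 * ((Finset.range (N + 1)).filter
        (fun t => s t ≠ s (t + 1))).card) := by
  classical
  set P := (Finset.Icc 1 n).filter (fun k => s k = -1) with hP
  set C := (Finset.range (N + 1)).filter (fun t => s t ≠ s (t + 1)) with hC
  have hmem : ∀ k ∈ P, 1 ≤ k ∧ k ≤ n ∧ s k = -1 := by
    intro k hk
    rw [hP, Finset.mem_filter, Finset.mem_Icc] at hk
    exact ⟨hk.1.1, hk.1.2, hk.2⟩
  have h1 : P.card ≤ (2 * Nat.sqrt (n + 2) + 1) * (P.image (fun k => Nat.sqrt (k + 2))).card := by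
    refine Finset.card_le_mul_card_image P _ ?_
    intro b hb
    rw [Finset.mem_image] at hb
    obtain ⟨k₁, hk₁, hk₁b⟩ := hb
    have hbn : b ≤ Nat.sqrt (n + 2) := by
      rw [← hk₁b]
      exact Nat.sqrt_le_sqrt (by have := (hmem k₁ hk₁).2.1; omega)
    calc (P.filter (fun k => Nat.sqrt (k + 2) = b)).card
        ≤ ((Finset.Ico (b ^ 2) ((b + 1) ^ 2)).image (fun m => m - 2)).card := by
          refine Finset.card_le_card ?_
          intro k hk
          rw [Finset.mem_filter] at hk
          rw [Finset.mem_image]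
          refine ⟨k + 2, ?_, by omega⟩
          rw [Finset.mem_Ico]
          constructor
          · rw [← hk.2]; exact Nat.sqrt_le' _
          · rw [← hk.2]; exact Nat.lt_succ_sqrt' _
      _ ≤ (Finset.Ico (b ^ 2) ((b + 1) ^ 2)).card := Finset.card_image_le
      _ = (b + 1) ^ 2 - b ^ 2 := by rw [Nat.card_Ico]
      _ ≤ 2 * Nat.sqrt (n + 2) + 1 := by
          have : (b + 1) ^ 2 = b ^ 2 + (2 * b + 1) := by ring
          rw [this]
          omega
  have h2 : (P.image (fun k => Nat.sqrt (k + 2))).card ≤ 2 * C.card := by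
    have hsub : P.image (fun k => Nat.sqrt (k + 2)) ⊆
        C.image (fun t => t + 1) ∪ C.image (fun t => Nat.sqrt (t + 2)) := by
      intro r hr
      rw [Finset.mem_image] at hr
      obtain ⟨k, hk, hkr⟩ := hr
      obtain ⟨hk1, hkn, hks⟩ := hmem k hk
      have hr1 : 1 ≤ r := by
        rw [← hkr, Nat.le_sqrt']
        omega
      have hrle : r ^ 2 ≤ k + 2 := by rw [← hkr]; exact Nat.sqrt_le' _
      have hrlt : k + 2 < (r + 1) ^ 2 := by rw [← hkr]; exact Nat.lt_succ_sqrt' _
      have hrn : r ≤ Nat.sqrt (n + 2) := by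
        rw [← hkr]
        exact Nat.sqrt_le_sqrt (by omega)
      obtain ⟨r, rfl⟩ : ∃ r', r = r' + 1 := ⟨r - 1, by omega⟩
      set m := (r + 1) ^ 2 + 2 * (r + 1) - 2 with hm
      have hm1 : k ≤ m := by
        rw [hm]
        have : (r + 1 + 1) ^ 2 = (r + 1) ^ 2 + 2 * (r + 1) + 1 := by ring
        omega
      have hm2 : m ≤ k + 2 * (r + 1) := by
        rw [hm]; omega
      have hrel' := hrel r
      rcases hs m with hsm | hsm
      · obtain ⟨t, ht1, ht2, ht3, ht4⟩ := exists_change hs hm1 hks hsm
        refine Finset.mem_union_right _ (Finset.mem_image.2 ⟨t, ?_, ?_⟩)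
        · rw [hC, Finset.mem_filter, Finset.mem_range]
          refine ⟨by omega, ?_⟩
          rw [ht3, ht4]; norm_num
        · refine le_antisymm ?_ ?_
          · have : Nat.sqrt (t + 2) < (r + 1) + 1 := by
              rw [Nat.sqrt_lt']
              have : (r + 1 + 1) ^ 2 = (r + 1) ^ 2 + 2 * (r + 1) + 1 := by ring
              omega
            omega
          · rw [Nat.le_sqrt']
            omega
      · refine Finset.mem_union_left _ (Finset.mem_image.2 ⟨r, ?_, rfl⟩)
        rw [hC, Finset.mem_filter, Finset.mem_range]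
        refine ⟨by omega, ?_⟩
        intro h
        rw [← hm, hsm, ← h] at hrel'
        rcases hs r with h' | h' <;> rw [h'] at hrel' <;> norm_num at hrel'
    calc (P.image (fun k => Nat.sqrt (k + 2))).card
        ≤ (C.image (fun t => t + 1) ∪ C.image (fun t => Nat.sqrt (t + 2))).card :=
          Finset.card_le_card hsub
      _ ≤ (C.image (fun t => t + 1)).card + (C.image (fun t => Nat.sqrt (t + 2))).card :=
          Finset.card_union_le _ _
      _ ≤ C.card + C.card := add_le_add Finset.card_image_le Finset.card_image_le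
      _ = 2 * C.card := by ring
  exact h1.trans (Nat.mul_le_mul_left _ h2)

/-- both kinds of changes are equally frequent, up to one -/
lemma balance {s : ℕ → ℤ} (hs : ∀ k, s k = 1 ∨ s k = -1) (N : ℕ) :
    (((Finset.Icc 1 N).filter (fun k => s k = -1 ∧ s (k + 1) = 1)).card : ℤ) -
      ((Finset.Icc 1 N).filter (fun k => s k = 1 ∧ s (k + 1) = -1)).card =
      (s (N + 1) - s 1) / 2 := by
  have key : ∀ k, s (k + 1) - s k =
      2 * ((if s k = -1 ∧ s (k + 1) = 1 then (1 : ℤ) else 0) -
        (if s k = 1 ∧ s (k + 1) = -1 then (1 : ℤ) else 0)) := by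
    intro k
    rcases hs k with h | h <;> rcases hs (k + 1) with h' | h' <;> rw [h, h'] <;> norm_num
  have htel : ∑ k ∈ Finset.Icc 1 N, (s (k + 1) - s k) = s (N + 1) - s 1 := by
    induction N with
    | zero => simp
    | succ N ih => rw [Finset.sum_Icc_succ_top (by omega), ih]; ring
  rw [← htel, Finset.sum_congr rfl fun k _ => key k, ← Finset.mul_sum, Finset.sum_sub_distrib,
    ← Finset.sum_filter, ← Finset.sum_filter, Int.mul_ediv_cancel_left _ (by norm_num)]
  simp

/-- each kind of change is at least `(|C| - 3) / 2` times present -/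
lemma both_kinds {s : ℕ → ℤ} (hs : ∀ k, s k = 1 ∨ s k = -1) (N : ℕ) :
    ((Finset.range (N + 1)).filter (fun t => s t ≠ s (t + 1))).card ≤
        2 * ((Finset.Icc 1 N).filter (fun k => s k = 1 ∧ s (k + 1) = -1)).card + 2 ∧
      ((Finset.range (N + 1)).filter (fun t => s t ≠ s (t + 1))).card ≤
        2 * ((Finset.Icc 1 N).filter (fun k => s k = -1 ∧ s (k + 1) = 1)).card + 2 := by
  classical
  have h1 : ((Finset.range (N + 1)).filter (fun t => s t ≠ s (t + 1))).card ≤
      ((Finset.Icc 1 N).filter (fun k => s k = 1 ∧ s (k + 1) = -1)).card +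
        ((Finset.Icc 1 N).filter (fun k => s k = -1 ∧ s (k + 1) = 1)).card + 1 := by
    have hsub : (Finset.range (N + 1)).filter (fun t => s t ≠ s (t + 1)) ⊆
        (((Finset.Icc 1 N).filter (fun k => s k = 1 ∧ s (k + 1) = -1)) ∪
          ((Finset.Icc 1 N).filter (fun k => s k = -1 ∧ s (k + 1) = 1))) ∪ {0} := by
      intro t ht
      rw [Finset.mem_filter, Finset.mem_range] at ht
      rw [Finset.mem_union, Finset.mem_union, Finset.mem_filter, Finset.mem_filter,
        Finset.mem_Icc, Finset.mem_singleton]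
      rcases Nat.eq_zero_or_pos t with h0 | h0
      · exact Or.inr h0
      · left
        have hle : 1 ≤ t ∧ t ≤ N := ⟨h0, by omega⟩
        rcases hs t with h | h <;> rcases hs (t + 1) with h' | h'
        · exact absurd (h.trans h'.symm) ht.2
        · exact Or.inl ⟨hle, h, h'⟩
        · exact Or.inr ⟨hle, h, h'⟩
        · exact absurd (h.trans h'.symm) ht.2
    refine (Finset.card_le_card hsub).trans ((Finset.card_union_le _ _).trans ?_)
    rw [Finset.card_singleton]
    exact Nat.add_le_add_right (Finset.card_union_le _ _) 1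
  have h2 := balance hs N
  have h3 : -1 ≤ (s (N + 1) - s 1) / 2 ∧ (s (N + 1) - s 1) / 2 ≤ 1 := by
    rcases hs (N + 1) with h | h <;> rcases hs 1 with h' | h' <;> rw [h, h'] <;> norm_num
  omega

end Pool.Agent.Lib.MP_d57abb_nt.Chg
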