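import Pool.Agent.Lib.MP_d57abb_nt.Word
import Pool.Agent.Lib.MP_d57abb_nt.Uniq

/-!
# The counting inequality
-/

open Real MeasureTheory

namespace Pool.Agent.Lib.MP_d57abb_nt

theorem log_al_lower : 0.9 ≤ Real.log al := by
  have hal : 0 < al := by linarith [al_lo]
  rw [Real.le_log_iff_exp_le hal]
  have h1 : Real.exp 0.9 * Real.exp 0.1 = Real.exp 1 := by
    rw [← Real.exp_add]; norm_num
  have h2 : (1.1 : ℝ) ≤ Real.exp 0.1 := by
    have := Real.add_one_le_exp (0.1 : ℝ)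
    linarith
  have h3 := Real.exp_one_lt_d9
  have h4 : 0 < Real.exp (0.9 : ℝ) := Real.exp_pos _
  have h5 : Real.exp 0.9 * 1.1 ≤ Real.exp 1 := by
    rw [← h1]; exact mul_le_mul_of_nonneg_left h2 h4.le
  linarith [al_lo]

/-- the pairs `(k, u)` with `k ≤ M`, `g (k² + 3 k + 1) = -1`, `u ∣ k² + 3 k + 1` -/
def TT (g : ℕ → ℤ) (M : ℕ) : Finset (Σ _ : ℕ, ℕ) :=
  ((Finset.Icc 1 M).filter (fun k => g (k ^ 2 + 3 * k + 1) = -1)).sigma
    (fun k => (k ^ 2 + 3 * k + 1).divisors)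

/-- adjacent pairs with given `k` and given norm of the first member in the window of angles -/
def IsPair (k u : ℕ) (v : ℤ × ℤ) : Prop := ∃ w : ℤ × ℤ, TP v ∧ TP w ∧ dt v w = 1 ∧
  kk v w = k ∧ nm v = u ∧ |an v - 0.45| ≤ 0.6

open Classical in
/-- the angle belonging to `(k, u)` -/
noncomputable def cc (k u : ℕ) : ℝ := if h : ∃ v, IsPair k u v then an h.choose else 0

theorem cc_eq {k u : ℕ} {v : ℤ × ℤ} (h : IsPair k u v) : cc k u = an v := by
  have hex : ∃ v, IsPair k u v := ⟨v, h⟩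
  unfold cc
  rw [dif_pos hex]
  have h' := hex.choose_spec
  congr 1
  obtain ⟨w, a1, a2, a3, a4, a5, a6⟩ := h
  obtain ⟨w', b1, b2, b3, b4, b5, b6⟩ := h'
  refine uniq b1 b2 a1 a2 b3 a3 (by rw [b4, a4]) (by rw [b5, a5]) ?_
  have := log_al_lower
  rw [abs_le] at a6 b6
  rw [abs_lt]
  constructor <;> linarith [a6.1, a6.2, b6.1, b6.2]

variable {g : ℕ → ℤ}

theorem g_one (hg : CM g) : g 1 = 1 := by
  have h1 := hg.mul 1 1
  rw [mul_one] at h1
  rcases hg.val 1 one_pos with h | h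
  · exact h
  · rw [h] at h1; norm_num at h1

/-- from an alternating pair near `s` to a pair `(k, u)` -/
theorem alt_pair (hg : CM g) {η X s : ℝ} (hη' : η ≤ 1 / 20) (hX : 0 ≤ X) (hs0 : 0 ≤ s)
    (hs1 : s ≤ 0.9) (h : Alt g η X s) : ∃ p ∈ TT g ⌊2 * X⌋₊, |cc p.1 p.2 - s| ≤ 2 * η := by
  obtain ⟨a, b, ha, hb, hne, h1, h2, h3, h4⟩ := h
  obtain ⟨v, w, tv', tw, hdt, hsg, Hv, Hw⟩ := farey hg ha hb hne
  rw [abs_le] at h1 h2
  have l1 : s - 2 * η ≤ an v := Hv.le_an ha hb tv' (by linarith) (by linarith)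
  have l2 : an v ≤ s + 2 * η := Hv.an_le ha hb tv' (by linarith) (by linarith)
  have n1 : (nm v : ℝ) ≤ 2 * X := Hv.nm_le ha hb tv' (s := s - 2 * η) (t := s + 2 * η) hX
    (by linarith) (by linarith) (by linarith) (by linarith) (by linarith) h3 h4
  have n2 : (nm w : ℝ) ≤ 2 * X := Hw.nm_le ha hb tw (s := s - 2 * η) (t := s + 2 * η) hX
    (by linarith) (by linarith) (by linarith) (by linarith) (by linarith) h3 h4
  obtain ⟨k, hk⟩ := Int.eq_ofNat_of_zero_le (kk_nonneg tv' tw hdt)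
  obtain ⟨u, hu⟩ := Int.eq_ofNat_of_zero_le tv'.nm_pos.le
  obtain ⟨u', hu'⟩ := Int.eq_ofNat_of_zero_le tw.nm_pos.le
  have hf : k ^ 2 + 3 * k + 1 = u * u' := by
    have := kk_eq hdt
    rw [hk, hu, hu'] at this
    exact_mod_cast this
  have hprod : g (k ^ 2 + 3 * k + 1) = -1 := by
    rw [hf, hg.mul]
    have e1 : sg g v = g u := by unfold sg; rw [hu]; simp
    have e2 : sg g w = g u' := by unfold sg; rw [hu']; simp
    rw [e1, e2] at hsg
    have v1 := sg_val hg tv'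
    have v2 := sg_val hg tw
    rw [e1] at v1
    rw [e2] at v2
    rcases v1 with v1 | v1 <;> rcases v2 with v2 | v2 <;> rw [v1, v2] at hsg ⊢
    · exact absurd rfl hsg
    · norm_num
    · norm_num
    · exact absurd rfl hsg
  have hk1 : 1 ≤ k := by
    rcases Nat.eq_zero_or_pos k with h0 | h0
    · rw [h0] at hprod
      norm_num at hprod
      rw [g_one hg] at hprod
      norm_num at hprod
    · exact h0
  have hkM : k ≤ ⌊2 * X⌋₊ := by
    apply Nat.le_floor
    have := kk_le tv' tw hdt (by linarith) n1 n2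
    rw [hk] at this
    exact_mod_cast this
  refine ⟨⟨k, u⟩, ?_, ?_⟩
  · unfold TT
    rw [Finset.mem_sigma]
    refine ⟨Finset.mem_filter.mpr ⟨Finset.mem_Icc.mpr ⟨hk1, hkM⟩, hprod⟩, ?_⟩
    rw [Nat.mem_divisors]
    exact ⟨⟨u', hf⟩, by positivity⟩
  · have hpair : IsPair k u v := by
      refine ⟨w, tv', tw, hdt, hk, hu, ?_⟩
      rw [abs_le]
      constructor <;> linarith
    simp only
    rw [cc_eq hpair, abs_le]
    constructor <;> linarith

theorem count (hg : CM g) {η B : ℝ} (hη : 0 < η) (hη' : η ≤ 1 / 20) (hB : 1 ≤ B) {n : ℕ}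
    (hn : 0 < n) (l : List (Bool × (ℤ × ℤ))) (hl : ∀ x ∈ l, TP x.2 ∧ (nm x.2 : ℝ) ≤ B)
    (hsg : sgl g l = -1) (htot : |tot l| ≤ η) (hpts : ∀ t ∈ pts l 0, -(1 / 5) ≤ t ∧ t ≤ 2 / 5) :
    (3 / 10 : ℝ) ≤ (l.length + 1) * (36 / (η * (n : ℝ) ^ 2) +
      4 * η * (TT g ⌊2 * (5 * (n : ℝ) ^ 2 * B)⌋₊).card) := by
  have hn' : (0 : ℝ) < n := by exact_mod_cast hn
  set Q : ℝ := 5 * (n : ℝ) ^ 2 with hQ
  have hQ0 : 0 ≤ Q := by positivity
  set T := TT g ⌊2 * (Q * B)⌋₊ with hT
  set O := (pts l 0).toFinset with hO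
  have hOcard : (O.card : ℝ) ≤ l.length + 1 := by
    have : O.card ≤ l.length + 1 := by
      rw [hO, ← length_pts l 0]; exact List.toFinset_card_le _
    exact_mod_cast this
  have hlog := log_al_lower
  have hOb : ∀ o ∈ O, -(1 / 5) ≤ o ∧ o ≤ 2 / 5 := by
    intro o ho
    exact hpts o (List.mem_toFinset.mp ho)
  have hcover : Set.Icc (1 / 5 : ℝ) (1 / 2) ⊆ ⋃ o ∈ O,
      ({s : ℝ | s ∈ Set.Icc (1 / 5 : ℝ) (1 / 2) ∧ ¬ Good η (5 * (n : ℝ) ^ 2) (s + o)} ∪
        ⋃ p ∈ T, Metric.closedBall (cc p.1 p.2 - o) (2 * η)) := by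
    intro s hs
    obtain ⟨t, ht, hor⟩ := path hg hη.le hQ0 hB l hl hsg htot s
    rw [pts_eq_map] at ht
    obtain ⟨o, ho, rfl⟩ := List.mem_map.mp ht
    have hoO : o ∈ O := List.mem_toFinset.mpr ho
    simp only [Set.mem_iUnion]
    refine ⟨o, hoO, ?_⟩
    have hb := hOb o hoO
    rw [add_comm] at hor
    rcases hor with h | h
    · left; exact ⟨hs, h⟩
    · right
      simp only [Set.mem_iUnion]
      obtain ⟨p, hp, hp2⟩ := alt_pair hg hη' (by positivity) (by linarith [hs.1]) (by linarith [hs.2]) h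
      refine ⟨p, hp, ?_⟩
      rw [Metric.mem_closedBall, Real.dist_eq, abs_sub_comm]
      have : cc p.1 p.2 - o - s = cc p.1 p.2 - (s + o) := by ring
      rw [this]; exact hp2
  have hvol : ENNReal.ofReal (3 / 10) ≤ ENNReal.ofReal ((l.length + 1) * (36 / (η * (n : ℝ) ^ 2) +
      4 * η * T.card)) := by
    calc ENNReal.ofReal (3 / 10) = volume (Set.Icc (1 / 5 : ℝ) (1 / 2)) := by
          rw [Real.volume_Icc]; norm_num
      _ ≤ ∑ o ∈ O, volume ({s : ℝ | s ∈ Set.Icc (1 / 5 : ℝ) (1 / 2) ∧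
          ¬ Good η (5 * (n : ℝ) ^ 2) (s + o)} ∪
            ⋃ p ∈ T, Metric.closedBall (cc p.1 p.2 - o) (2 * η)) :=
          (measure_mono hcover).trans (measure_biUnion_finset_le _ _)
      _ ≤ ∑ o ∈ O, ENNReal.ofReal (36 / (η * (n : ℝ) ^ 2) + 4 * η * T.card) := by
          apply Finset.sum_le_sum
          intro o ho
          have hb := hOb o ho
          refine (measure_union_le _ _).trans ?_
          rw [ENNReal.ofReal_add (by positivity) (by positivity)]
          apply add_le_add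
          · exact bad_volume hη hn (by linarith) (by linarith)
          · refine (measure_biUnion_finset_le _ _).trans ?_
            simp only [Real.volume_closedBall, Finset.sum_const, nsmul_eq_mul]
            rw [← ENNReal.ofReal_natCast, ← ENNReal.ofReal_mul (by positivity)]
            apply ENNReal.ofReal_le_ofReal
            linarith
      _ = ENNReal.ofReal (O.card * (36 / (η * (n : ℝ) ^ 2) + 4 * η * T.card)) := by
          rw [Finset.sum_const, nsmul_eq_mul, ← ENNReal.ofReal_natCast,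
            ← ENNReal.ofReal_mul (by positivity)]
      _ ≤ _ := by
          apply ENNReal.ofReal_le_ofReal
          exact mul_le_mul_of_nonneg_right hOcard (by positivity)
  exact (ENNReal.ofReal_le_ofReal_iff (by positivity)).mp hvol

end Pool.Agent.Lib.MP_d57abb_nt
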