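import Pool.Agent.Lib.MP_d57abb_nt.Basic

/-!
# Most angles are approximated by elements of small norm
-/

open Real MeasureTheory

namespace Pool.Agent.Lib.MP_d57abb_nt

/-- the angle as a function of the slope -/
noncomputable def Af (t : ℝ) : ℝ := Real.log (1 + t * al) - Real.log (1 + t * be)

theorem an_eq_Af {k j : ℕ} (hk : 0 < k) : an ((k : ℤ), (j : ℤ)) = Af ((j : ℝ) / k) := by
  have hk' : (0 : ℝ) < k := by exact_mod_cast hk
  have hal : 0 < al := by linarith [al_lo]
  have hbe : 0 < be := by linarith [be_lo]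
  have e1 : pp ((k : ℤ), (j : ℤ)) = k * (1 + (j : ℝ) / k * al) := by
    unfold pp; push_cast; field_simp
  have e2 : qq ((k : ℤ), (j : ℤ)) = k * (1 + (j : ℝ) / k * be) := by
    unfold qq; push_cast; field_simp
  have h1 : 0 < 1 + (j : ℝ) / k * al := by positivity
  have h2 : 0 < 1 + (j : ℝ) / k * be := by positivity
  unfold an Af
  rw [e1, e2, Real.log_mul hk'.ne' h1.ne', Real.log_mul hk'.ne' h2.ne']
  ring

theorem Af_lip_aux {s t : ℝ} (hs : 0 ≤ s) (hst : s ≤ t) : |Af t - Af s| ≤ al * (t - s) := by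
  have hal : 0 < al := by linarith [al_lo]
  have hbe : 0 < be := by linarith [be_lo]
  have ht : 0 ≤ t := hs.trans hst
  have key : ∀ c : ℝ, 0 < c → 0 ≤ Real.log (1 + t * c) - Real.log (1 + s * c) ∧
      Real.log (1 + t * c) - Real.log (1 + s * c) ≤ c * (t - s) := by
    intro c hc
    have h1 : 0 < 1 + s * c := by positivity
    have h2 : 0 < 1 + t * c := by positivity
    constructor
    · have : Real.log (1 + s * c) ≤ Real.log (1 + t * c) :=
        Real.log_le_log h1 (by nlinarith)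
      linarith
    · rw [← Real.log_div h2.ne' h1.ne']
      have h3 := Real.log_le_sub_one_of_pos (div_pos h2 h1)
      have h4 : (1 + t * c) / (1 + s * c) - 1 ≤ c * (t - s) := by
        rw [div_sub_one h1.ne', div_le_iff₀ h1]
        have h5 : 0 ≤ c * (t - s) := mul_nonneg hc.le (by linarith)
        have h6 : 0 ≤ s * c := by positivity
        nlinarith [mul_nonneg h5 h6]
      linarith
  obtain ⟨k1, k2⟩ := key al hal
  obtain ⟨k3, k4⟩ := key be hbe
  have h5 : be * (t - s) ≤ al * (t - s) := by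
    apply mul_le_mul_of_nonneg_right _ (by linarith)
    linarith [al_lo, be_hi]
  unfold Af
  rw [abs_le]
  constructor <;> linarith

theorem Af_lip {s t : ℝ} (hs : 0 ≤ s) (ht : 0 ≤ t) : |Af t - Af s| ≤ al * |t - s| := by
  rcases le_total s t with h | h
  · rw [abs_of_nonneg (by linarith : 0 ≤ t - s)]
    exact Af_lip_aux hs h
  · rw [abs_sub_comm, abs_sub_comm t s, abs_of_nonneg (by linarith : 0 ≤ s - t)]
    exact Af_lip_aux ht h

/-- every angle in `[0, log α]` is the angle of a slope in `[0, 1]` -/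
theorem exists_slope {s : ℝ} (h0 : 0 ≤ s) (h1 : s ≤ Real.log al) :
    ∃ t : ℝ, 0 ≤ t ∧ t ≤ 1 ∧ Af t = s := by
  have hal : 0 < al := by linarith [al_lo]
  have hbe : 0 < be := by linarith [be_lo]
  set E := Real.exp s with hE
  have hE1 : 1 ≤ E := Real.one_le_exp h0
  have hE2 : E ≤ al := by
    rw [hE, ← Real.le_log_iff_exp_le hal]; exact h1
  have hden : 0 < al - be * E := by
    have : be * E ≤ be * al := mul_le_mul_of_nonneg_left hE2 hbe.le
    have h3 : be * al = 1 := by rw [mul_comm]; exact al_mul_be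
    linarith [al_lo]
  have hab : 0 < al - be := by linarith [al_lo, be_hi]
  refine ⟨(E - 1) / (al - be * E), div_nonneg (by linarith) hden.le, ?_, ?_⟩
  · rw [div_le_one hden]
    have h3 : E * (1 + be) ≤ al * (1 + be) := mul_le_mul_of_nonneg_right hE2 (by linarith)
    have h4 := al_mul_be
    nlinarith
  · have e1 : 1 + (E - 1) / (al - be * E) * al = E * (al - be) / (al - be * E) := by
      rw [div_mul_eq_mul_div, eq_div_iff hden.ne', add_mul, div_mul_cancel₀ _ hden.ne']; ring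
    have e2 : 1 + (E - 1) / (al - be * E) * be = (al - be) / (al - be * E) := by
      rw [div_mul_eq_mul_div, eq_div_iff hden.ne', add_mul, div_mul_cancel₀ _ hden.ne']; ring
    unfold Af
    have hE0 : 0 < E := by linarith
    rw [e1, e2, Real.log_div (by positivity) hden.ne', Real.log_div hab.ne' hden.ne',
      Real.log_mul hE0.ne' hab.ne', hE, Real.log_exp]
    ring

theorem dirich {s : ℝ} (h0 : 0 ≤ s) (h1 : s ≤ Real.log al) {n : ℕ} (hn : 0 < n) :
    ∃ k j : ℕ, 0 < k ∧ k ≤ n ∧ j ≤ k ∧ |an ((k : ℤ), (j : ℤ)) - s| ≤ 3 / (k * n) := by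
  obtain ⟨t, ht0, ht1, hts⟩ := exists_slope h0 h1
  obtain ⟨j, k, hk0, hkn, hjk⟩ := Real.exists_int_int_abs_mul_sub_le t hn
  obtain ⟨k', rfl⟩ := Int.eq_ofNat_of_zero_le hk0.le
  have hn' : (0 : ℝ) < n := by exact_mod_cast hn
  have hn1 : (1 : ℝ) ≤ n := by exact_mod_cast hn
  have hk' : (0 : ℝ) < k' := by exact_mod_cast hk0
  have hhalf : 1 / ((n : ℝ) + 1) ≤ 1 / 2 := by
    apply div_le_div_of_nonneg_left (by norm_num) (by norm_num) (by linarith)
  have hjk' := hjk
  rw [abs_le] at hjk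
  rw [Int.cast_natCast] at hjk hjk'
  have hj0 : 0 ≤ j := by
    have h2 : (-1 : ℝ) < j := by
      have : 0 ≤ (k' : ℝ) * t := by positivity
      linarith [hjk.2]
    have : (-1 : ℤ) < j := by exact_mod_cast h2
    omega
  obtain ⟨j', rfl⟩ := Int.eq_ofNat_of_zero_le hj0
  rw [Int.cast_natCast] at hjk hjk'
  have hjle : j' ≤ k' := by
    have h2 : (j' : ℝ) < k' + 1 := by
      have : (k' : ℝ) * t ≤ k' * 1 := mul_le_mul_of_nonneg_left ht1 hk'.le
      linarith [hjk.1]
    have : j' < k' + 1 := by exact_mod_cast h2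
    omega
  refine ⟨k', j', by exact_mod_cast hk0, by exact_mod_cast hkn, hjle, ?_⟩
  rw [an_eq_Af (by exact_mod_cast hk0), ← hts]
  refine (Af_lip ht0 (by positivity)).trans ?_
  have h3 : |(j' : ℝ) / k' - t| ≤ 1 / (k' * n) := by
    have e : (j' : ℝ) / k' - t = (j' - k' * t) / k' := by field_simp
    rw [e, abs_div, abs_of_pos hk', div_le_div_iff₀ hk' (by positivity), abs_sub_comm]
    have h4 : 1 / ((n : ℝ) + 1) ≤ 1 / n := by
      apply div_le_div_of_nonneg_left (by norm_num) hn' (by linarith)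
    have h5 : |(k' : ℝ) * t - j'| * n ≤ 1 := by
      calc |(k' : ℝ) * t - j'| * n ≤ (1 / n) * n := by
            apply mul_le_mul_of_nonneg_right (hjk'.trans h4) hn'.le
        _ = 1 := by field_simp
    nlinarith
  have h4 : al ≤ 3 := by linarith [al_hi]
  calc al * |(j' : ℝ) / k' - t| ≤ 3 * (1 / (k' * n)) :=
        mul_le_mul h4 h3 (abs_nonneg _) (by norm_num)
    _ = 3 / (k' * n) := by ring

/-- there is a totally positive element of norm at most `Q` whose angle is within `η` of `s` -/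
def Good (η Q s : ℝ) : Prop := ∃ v : ℤ × ℤ, TP v ∧ |an v - s| ≤ η ∧ (nm v : ℝ) ≤ Q

theorem TP_nat {k j : ℕ} (hk : 0 < k) : TP ((k : ℤ), (j : ℤ)) := by
  have hk' : (0 : ℝ) < k := by exact_mod_cast hk
  have hal : 0 < al := by linarith [al_lo]
  have hbe : 0 < be := by linarith [be_lo]
  constructor
  · unfold pp; push_cast; positivity
  · unfold qq; push_cast; positivity

theorem bad_volume {η : ℝ} (hη : 0 < η) {n : ℕ} (hn : 0 < n) {a b σ : ℝ} (ha : 0 ≤ a + σ)
    (hb : b + σ ≤ Real.log al) :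
    volume {s : ℝ | s ∈ Set.Icc a b ∧ ¬ Good η (5 * (n : ℝ) ^ 2) (s + σ)} ≤
      ENNReal.ofReal (36 / (η * (n : ℝ) ^ 2)) := by
  have hn' : (0 : ℝ) < n := by exact_mod_cast hn
  set V : ℕ := ⌊3 / (η * n)⌋₊ with hV
  set U : ℕ → Set ℝ := fun k => ⋃ j ∈ Finset.range (k + 1),
    Metric.closedBall (an ((k : ℤ), (j : ℤ)) - σ) (3 / (k * n)) with hU
  have hsub : {s : ℝ | s ∈ Set.Icc a b ∧ ¬ Good η (5 * (n : ℝ) ^ 2) (s + σ)} ⊆
      ⋃ k ∈ Finset.Icc 1 V, U k := by
    rintro s ⟨⟨hs1, hs2⟩, hs3⟩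
    obtain ⟨k, j, hk, hkn, hjk, hab⟩ := dirich (s := s + σ) (by linarith) (by linarith) hn
    have hk' : (0 : ℝ) < k := by exact_mod_cast hk
    have hnot : ¬ |an ((k : ℤ), (j : ℤ)) - (s + σ)| ≤ η := by
      intro h
      apply hs3
      refine ⟨((k : ℤ), (j : ℤ)), TP_nat hk, h, ?_⟩
      have h1 : (j : ℝ) ≤ k := by exact_mod_cast hjk
      have h2 : (k : ℝ) ≤ n := by exact_mod_cast hkn
      have h3 : (0 : ℝ) ≤ j := by positivity
      unfold nm
      push_cast
      have h4 : (k : ℝ) ^ 2 ≤ n ^ 2 := pow_le_pow_left₀ hk'.le h2 2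
      have h5 : (j : ℝ) ^ 2 ≤ k ^ 2 := pow_le_pow_left₀ h3 h1 2
      have h6 : (k : ℝ) * j ≤ k * k := mul_le_mul_of_nonneg_left h1 hk'.le
      nlinarith
    push Not at hnot
    have hlt : η < 3 / (k * n) := lt_of_lt_of_le hnot hab
    have hkV : k ≤ V := by
      rw [hV]
      apply Nat.le_floor
      rw [le_div_iff₀ (by positivity)]
      rw [lt_div_iff₀ (by positivity)] at hlt
      nlinarith
    simp only [Set.mem_iUnion]
    refine ⟨k, Finset.mem_Icc.mpr ⟨hk, hkV⟩, ?_⟩
    simp only [hU, Set.mem_iUnion]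
    refine ⟨j, Finset.mem_range.mpr (by omega), ?_⟩
    rw [Metric.mem_closedBall, Real.dist_eq, abs_sub_comm]
    have : an ((k : ℤ), (j : ℤ)) - σ - s = an ((k : ℤ), (j : ℤ)) - (s + σ) := by ring
    rw [this]; exact hab
  have hUk : ∀ k ∈ Finset.Icc 1 V, volume (U k) ≤ ENNReal.ofReal (12 / n) := by
    intro k hk
    have hk1 := (Finset.mem_Icc.mp hk).1
    have hk' : (1 : ℝ) ≤ k := by exact_mod_cast hk1
    have hk0 : (0 : ℝ) < k := by linarith
    refine (measure_biUnion_finset_le _ _).trans ?_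
    simp only [Real.volume_closedBall, Finset.sum_const, Finset.card_range, nsmul_eq_mul]
    rw [← ENNReal.ofReal_natCast, ← ENNReal.ofReal_mul (by positivity)]
    apply ENNReal.ofReal_le_ofReal
    push_cast
    rw [show ((k : ℝ) + 1) * (2 * (3 / (k * n))) = (6 * ((k : ℝ) + 1) / k) / n by field_simp; ring]
    apply div_le_div_of_nonneg_right _ hn'.le
    rw [div_le_iff₀ hk0]
    linarith
  calc volume {s : ℝ | s ∈ Set.Icc a b ∧ ¬ Good η (5 * (n : ℝ) ^ 2) (s + σ)}
      ≤ volume (⋃ k ∈ Finset.Icc 1 V, U k) := measure_mono hsub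
    _ ≤ ∑ k ∈ Finset.Icc 1 V, volume (U k) := measure_biUnion_finset_le _ _
    _ ≤ ∑ k ∈ Finset.Icc 1 V, ENNReal.ofReal (12 / n) := Finset.sum_le_sum hUk
    _ = ENNReal.ofReal (V * (12 / n)) := by
        rw [Finset.sum_const, Nat.card_Icc, nsmul_eq_mul, ← ENNReal.ofReal_natCast,
          ← ENNReal.ofReal_mul (by positivity)]
        simp
    _ ≤ ENNReal.ofReal (36 / (η * (n : ℝ) ^ 2)) := by
        apply ENNReal.ofReal_le_ofReal
        have h1 : (V : ℝ) ≤ 3 / (η * n) := Nat.floor_le (by positivity)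
        calc (V : ℝ) * (12 / n) ≤ 3 / (η * n) * (12 / n) := by gcongr
          _ = 36 / (η * (n : ℝ) ^ 2) := by field_simp; norm_num

end Pool.Agent.Lib.MP_d57abb_nt
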