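import Pool.Agent.Lib.MP_d57abb_nt.Basic

/-!
# Between two totally positive elements of opposite signs there is an adjacent pair of opposite signs
-/

open Real

namespace Pool.Agent.Lib.MP_d57abb_nt

/-- The hypothesis on `g`: completely multiplicative with values `1` and `-1`. -/
structure CM (g : ℕ → ℤ) : Prop where
  mul : ∀ m n, g (m * n) = g m * g n
  val : ∀ n, 0 < n → g n = 1 ∨ g n = -1

/-- the sign of an element -/
def sg (g : ℕ → ℤ) (v : ℤ × ℤ) : ℤ := g (nm v).natAbs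

variable {g : ℕ → ℤ}

theorem sg_ml (hg : CM g) (v w : ℤ × ℤ) : sg g (ml v w) = sg g v * sg g w := by
  unfold sg
  rw [nm_ml, Int.natAbs_mul, hg.mul]

theorem sg_smul (hg : CM g) {n : ℤ} (hn : n ≠ 0) (v : ℤ × ℤ) : sg g (n • v) = sg g v := by
  unfold sg
  rw [nm_smul, Int.natAbs_mul, hg.mul, sq, Int.natAbs_mul, hg.mul]
  have h1 := hg.val n.natAbs (Int.natAbs_pos.mpr hn)
  rcases h1 with h1 | h1 <;> rw [h1] <;> ring

theorem sg_val (hg : CM g) {v : ℤ × ℤ} (hv : TP v) : sg g v = 1 ∨ sg g v = -1 :=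
  hg.val _ (Int.natAbs_pos.mpr hv.nm_pos.ne')

theorem sg_mul_self (hg : CM g) {v : ℤ × ℤ} (hv : TP v) : sg g v * sg g v = 1 := by
  rcases sg_val hg hv with h | h <;> rw [h] <;> norm_num

/-- `v` lies in the triangle with vertices `0`, `a`, `b`. -/
def Hull (a b v : ℤ × ℤ) : Prop := ∃ l m : ℝ, 0 ≤ l ∧ 0 ≤ m ∧ l + m ≤ 1 ∧
  pp v = l * pp a + m * pp b ∧ qq v = l * qq a + m * qq b

theorem Hull.left (a b : ℤ × ℤ) : Hull a b a := ⟨1, 0, by norm_num, by norm_num, by norm_num, by ring, by ring⟩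
theorem Hull.right (a b : ℤ × ℤ) : Hull a b b := ⟨0, 1, by norm_num, by norm_num, by norm_num, by ring, by ring⟩

theorem Hull.symm {a b v : ℤ × ℤ} (h : Hull a b v) : Hull b a v := by
  obtain ⟨l, m, h1, h2, h3, h4, h5⟩ := h
  exact ⟨m, l, h2, h1, by linarith, by rw [h4]; ring, by rw [h5]; ring⟩

/-- transitivity -/
theorem Hull.trans {a b c d v : ℤ × ℤ} (hc : Hull a b c) (hd : Hull a b d) (h : Hull c d v) :
    Hull a b v := by
  obtain ⟨l, m, h1, h2, h3, h4, h5⟩ := hc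
  obtain ⟨l', m', h1', h2', h3', h4', h5'⟩ := hd
  obtain ⟨r, s, k1, k2, k3, k4, k5⟩ := h
  refine ⟨r * l + s * l', r * m + s * m', by positivity, by positivity, ?_, ?_, ?_⟩
  · nlinarith
  · rw [k4, h4, h4']; ring
  · rw [k5, h5, h5']; ring

theorem Hull.smul (a b : ℤ × ℤ) {v : ℤ × ℤ} {n : ℤ} (hn : 0 < n) (h : Hull a b (n • v)) :
    Hull a b v := by
  obtain ⟨l, m, h1, h2, h3, h4, h5⟩ := h
  have hn' : (1 : ℝ) ≤ n := by exact_mod_cast hn
  have hn0 : (0 : ℝ) < n := by linarith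
  rw [pp_smul] at h4
  rw [qq_smul] at h5
  refine ⟨l / n, m / n, by positivity, by positivity, ?_, ?_, ?_⟩
  · rw [← add_div, div_le_one hn0]; linarith
  · field_simp; linarith
  · field_simp; linarith

theorem cramer (a b c : ℤ × ℤ) : (dt a b) • c = (dt c b) • a + (dt a c) • b := by
  ext
  · simp only [Prod.smul_fst, Prod.fst_add, smul_eq_mul, dt]; ring
  · simp only [Prod.smul_snd, Prod.snd_add, smul_eq_mul, dt]; ring

theorem TP.of_smul {v : ℤ × ℤ} {n : ℤ} (hn : 0 < n) (h : TP (n • v)) : TP v := by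
  have hn0 : (0 : ℝ) < n := by exact_mod_cast hn
  obtain ⟨h1, h2⟩ := h
  rw [pp_smul] at h1
  rw [qq_smul] at h2
  exact ⟨(mul_pos_iff_of_pos_left hn0).mp h1, (mul_pos_iff_of_pos_left hn0).mp h2⟩

theorem farey_aux (hg : CM g) : ∀ D : ℕ, ∀ a b : ℤ × ℤ, IsCoprime a.1 a.2 → TP a → TP b →
    dt a b = D → 0 < D → sg g a ≠ sg g b →
    ∃ v w : ℤ × ℤ, TP v ∧ TP w ∧ dt v w = 1 ∧ sg g v ≠ sg g w ∧ Hull a b v ∧ Hull a b w := by
  intro D
  induction D using Nat.strong_induction_on with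
  | _ D ih =>
  intro a b hcop ha hb hD hDpos hne
  obtain ⟨p, q, hpq⟩ := hcop
  set c0 : ℤ × ℤ := (-q, p) with hc0
  have h0 : dt a c0 = 1 := by
    simp only [dt, hc0]; linarith
  have hD0 : (D : ℤ) ≠ 0 := by exact_mod_cast hDpos.ne'
  have hDp : (0 : ℤ) < D := by exact_mod_cast hDpos
  set j : ℤ := -(dt c0 b / D) with hj
  set c : ℤ × ℤ := c0 + j • a with hc
  have haa : dt a a = 0 := by simp only [dt]; ring
  have h1 : dt a c = 1 := by
    rw [hc, dt_add_right, dt_smul_right, haa, h0]; ring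
  have h2 : dt c b = dt c0 b % D := by
    rw [hc, dt_add_left, dt_smul_left, hD, hj, Int.emod_def]; ring
  have he0 : 0 ≤ dt c b := by rw [h2]; exact Int.emod_nonneg _ hD0
  have heD : dt c b < D := by rw [h2]; exact Int.emod_lt_of_pos _ hDp
  have h3 := cramer a b c
  rw [hD, h1, one_smul] at h3
  clear_value c
  have hDr : (0 : ℝ) < D := by exact_mod_cast hDpos
  have her : (0 : ℝ) ≤ (dt c b : ℝ) := by exact_mod_cast he0
  have her' : (dt c b : ℝ) + 1 ≤ D := by exact_mod_cast heD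
  have h4 : (D : ℝ) * pp c = dt c b * pp a + pp b := by
    have := congrArg pp h3
    rw [pp_smul, pp_add, pp_smul] at this
    exact_mod_cast this
  have h5 : (D : ℝ) * qq c = dt c b * qq a + qq b := by
    have := congrArg qq h3
    rw [qq_smul, qq_add, qq_smul] at this
    exact_mod_cast this
  have hTc : TP c := by
    constructor
    · have : 0 < (D : ℝ) * pp c := by
        rw [h4]; have := mul_nonneg her ha.1.le; linarith [hb.1]
      exact (mul_pos_iff_of_pos_left hDr).mp this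
    · have : 0 < (D : ℝ) * qq c := by
        rw [h5]; have := mul_nonneg her ha.2.le; linarith [hb.2]
      exact (mul_pos_iff_of_pos_left hDr).mp this
  have hHc : Hull a b c := by
    refine ⟨dt c b / D, 1 / D, by positivity, by positivity, ?_, ?_, ?_⟩
    · rw [← add_div, div_le_one hDr]; exact her'
    · field_simp; linarith
    · field_simp; linarith
  by_cases hac : sg g a = sg g c
  · have hcb : sg g c ≠ sg g b := by rw [← hac]; exact hne
    have hepos : 0 < dt c b := by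
      rcases he0.lt_or_eq with h | h
      · exact h
      · exfalso
        rw [← h, zero_smul, zero_add] at h3
        apply hcb
        rw [← h3, sg_smul hg hD0]
    obtain ⟨e, he⟩ := Int.eq_ofNat_of_zero_le he0
    have hcc : IsCoprime c.1 c.2 := ⟨-a.2, a.1, by simp only [dt] at h1; linarith⟩
    obtain ⟨v, w, k1, k2, k3, k4, k5, k6⟩ := ih e (by omega) c b hcc hTc hb he (by omega) hcb
    exact ⟨v, w, k1, k2, k3, k4, hHc.trans (Hull.right a b) k5, hHc.trans (Hull.right a b) k6⟩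
  · exact ⟨a, c, ha, hTc, h1, hac, Hull.left a b, hHc⟩

/-- reduction to a primitive element -/
theorem exists_prim (hg : CM g) {a : ℤ × ℤ} (ha : TP a) : ∃ a' : ℤ × ℤ, ∃ n : ℤ, 0 < n ∧
    a = n • a' ∧ IsCoprime a'.1 a'.2 ∧ TP a' ∧ sg g a' = sg g a := by
  have h0 : Int.gcd a.1 a.2 ≠ 0 := by
    intro h
    rw [Int.gcd_eq_zero_iff] at h
    have := ha.1
    unfold pp at this
    rw [h.1, h.2] at this
    simp at this
  have hpos : 0 < Int.gcd a.1 a.2 := Nat.pos_of_ne_zero h0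
  obtain ⟨x, y, hxy, hx, hy⟩ := Int.exists_gcd_one hpos
  have e : a = ((Int.gcd a.1 a.2 : ℕ) : ℤ) • ((x, y) : ℤ × ℤ) := by
    ext
    · simp only [Prod.smul_fst, smul_eq_mul]; linarith
    · simp only [Prod.smul_snd, smul_eq_mul]; linarith
  have hn : (0 : ℤ) < ((Int.gcd a.1 a.2 : ℕ) : ℤ) := by exact_mod_cast hpos
  refine ⟨(x, y), _, hn, e, Int.isCoprime_iff_gcd_eq_one.mpr hxy, ?_, ?_⟩
  · rw [e] at ha; exact ha.of_smul hn
  · conv_rhs => rw [e]
    rw [sg_smul hg hn.ne']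

/-- Discrete continuity. -/
theorem farey (hg : CM g) {a b : ℤ × ℤ} (ha : TP a) (hb : TP b) (hne : sg g a ≠ sg g b) :
    ∃ v w : ℤ × ℤ, TP v ∧ TP w ∧ dt v w = 1 ∧ sg g v ≠ sg g w ∧ Hull a b v ∧ Hull a b w := by
  obtain ⟨a', n, hn, ea, ca, ta, sa⟩ := exists_prim hg ha
  obtain ⟨b', m, hm, eb, cb, tb, sb⟩ := exists_prim hg hb
  have ha' : Hull a b a' := Hull.smul a b hn (by rw [← ea]; exact Hull.left a b)
  have hb' : Hull a b b' := Hull.smul a b hm (by rw [← eb]; exact Hull.right a b)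
  have hne' : sg g a' ≠ sg g b' := by rw [sa, sb]; exact hne
  rcases lt_trichotomy (dt a' b') 0 with h | h | h
  · obtain ⟨D, hD⟩ := Int.eq_ofNat_of_zero_le (show 0 ≤ dt b' a' by
      have : dt b' a' = - dt a' b' := by simp only [dt]; ring
      omega)
    have hD2 : dt b' a' = - dt a' b' := by simp only [dt]; ring
    obtain ⟨v, w, k1, k2, k3, k4, k5, k6⟩ := farey_aux hg D b' a' cb tb ta hD (by omega) hne'.symm
    exact ⟨v, w, k1, k2, k3, k4, hb'.trans ha' k5, hb'.trans ha' k6⟩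
  · exfalso
    obtain ⟨p, q, hpq⟩ := ca
    have h3 := cramer a' (-q, p) b'
    have h4 : dt a' (-q, p) = 1 := by simp only [dt]; linarith
    rw [h4, h, zero_smul, add_zero, one_smul] at h3
    have h5 : dt b' (-q, p) ≠ 0 := by
      intro h5
      rw [h5, zero_smul] at h3
      have := tb.1
      rw [h3] at this
      simp [pp] at this
    apply hne'
    rw [h3, sg_smul hg h5]
  · obtain ⟨D, hD⟩ := Int.eq_ofNat_of_zero_le h.le
    obtain ⟨v, w, k1, k2, k3, k4, k5, k6⟩ := farey_aux hg D a' b' ca ta tb hD (by omega) hne'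
    exact ⟨v, w, k1, k2, k3, k4, ha'.trans hb' k5, ha'.trans hb' k6⟩

theorem an_le_iff {v : ℤ × ℤ} (hv : TP v) (t : ℝ) : an v ≤ t ↔ pp v ≤ Real.exp t * qq v := by
  unfold an
  rw [sub_le_iff_le_add, Real.log_le_iff_le_exp hv.1, Real.exp_add, Real.exp_log hv.2]

theorem le_an_iff {v : ℤ × ℤ} (hv : TP v) (t : ℝ) : t ≤ an v ↔ Real.exp t * qq v ≤ pp v := by
  unfold an
  rw [le_sub_iff_add_le, Real.le_log_iff_exp_le hv.1, Real.exp_add, Real.exp_log hv.2]

theorem Hull.an_le {a b v : ℤ × ℤ} (ha : TP a) (hb : TP b) (hv : TP v) (h : Hull a b v) {t : ℝ}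
    (h1 : an a ≤ t) (h2 : an b ≤ t) : an v ≤ t := by
  rw [an_le_iff ha] at h1
  rw [an_le_iff hb] at h2
  rw [an_le_iff hv]
  obtain ⟨l, m, k1, k2, k3, k4, k5⟩ := h
  rw [k4, k5]
  nlinarith [mul_le_mul_of_nonneg_left h1 k1, mul_le_mul_of_nonneg_left h2 k2]

theorem Hull.le_an {a b v : ℤ × ℤ} (ha : TP a) (hb : TP b) (hv : TP v) (h : Hull a b v) {t : ℝ}
    (h1 : t ≤ an a) (h2 : t ≤ an b) : t ≤ an v := by
  rw [le_an_iff ha] at h1
  rw [le_an_iff hb] at h2
  rw [le_an_iff hv]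
  obtain ⟨l, m, k1, k2, k3, k4, k5⟩ := h
  rw [k4, k5]
  nlinarith [mul_le_mul_of_nonneg_left h1 k1, mul_le_mul_of_nonneg_left h2 k2]

theorem pp_sq_le {a : ℤ × ℤ} (ha : TP a) {t X : ℝ} (h1 : an a ≤ t) (hX : (nm a : ℝ) ≤ X) :
    pp a ^ 2 ≤ X * Real.exp t := by
  rw [an_le_iff ha] at h1
  have h2 := pp_mul_qq a
  have h3 := Real.exp_pos t
  calc pp a ^ 2 = pp a * pp a := sq _
    _ ≤ pp a * (Real.exp t * qq a) := mul_le_mul_of_nonneg_left h1 ha.1.le
    _ = (nm a : ℝ) * Real.exp t := by rw [← h2]; ring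
    _ ≤ X * Real.exp t := mul_le_mul_of_nonneg_right hX h3.le

theorem qq_sq_le {a : ℤ × ℤ} (ha : TP a) {t X : ℝ} (h1 : t ≤ an a) (hX : (nm a : ℝ) ≤ X) :
    qq a ^ 2 ≤ X * Real.exp (-t) := by
  rw [le_an_iff ha] at h1
  have h2 := pp_mul_qq a
  have h3 := Real.exp_pos (-t)
  have h4 : qq a ≤ Real.exp (-t) * pp a := by
    have := mul_le_mul_of_nonneg_left h1 h3.le
    rw [← mul_assoc, ← Real.exp_add] at this
    simpa using this
  calc qq a ^ 2 = qq a * qq a := sq _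
    _ ≤ qq a * (Real.exp (-t) * pp a) := mul_le_mul_of_nonneg_left h4 ha.2.le
    _ = (nm a : ℝ) * Real.exp (-t) := by rw [← h2]; ring
    _ ≤ X * Real.exp (-t) := mul_le_mul_of_nonneg_right hX h3.le

theorem Hull.nm_le {a b v : ℤ × ℤ} (ha : TP a) (hb : TP b) (hv : TP v) (h : Hull a b v)
    {s t X : ℝ} (hX : 0 ≤ X) (h1 : s ≤ an a) (h2 : s ≤ an b) (h3 : an a ≤ t) (h4 : an b ≤ t)
    (hst : t - s ≤ 1) (hXa : (nm a : ℝ) ≤ X) (hXb : (nm b : ℝ) ≤ X) : (nm v : ℝ) ≤ 2 * X := by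
  obtain ⟨l, m, k1, k2, k3, k4, k5⟩ := h
  set P := √(X * Real.exp t) with hP
  set Q := √(X * Real.exp (-s)) with hQ
  have hP0 : 0 ≤ P := Real.sqrt_nonneg _
  have hQ0 : 0 ≤ Q := Real.sqrt_nonneg _
  have pa : pp a ≤ P := Real.le_sqrt_of_sq_le (pp_sq_le ha h3 hXa)
  have pb : pp b ≤ P := Real.le_sqrt_of_sq_le (pp_sq_le hb h4 hXb)
  have qa : qq a ≤ Q := Real.le_sqrt_of_sq_le (qq_sq_le ha h1 hXa)
  have qb : qq b ≤ Q := Real.le_sqrt_of_sq_le (qq_sq_le hb h2 hXb)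
  have pv : pp v ≤ P := by
    rw [k4]
    nlinarith [mul_le_mul_of_nonneg_left pa k1, mul_le_mul_of_nonneg_left pb k2]
  have qv : qq v ≤ Q := by
    rw [k5]
    nlinarith [mul_le_mul_of_nonneg_left qa k1, mul_le_mul_of_nonneg_left qb k2]
  have h5 : (nm v : ℝ) ≤ P * Q := by
    rw [← pp_mul_qq]
    exact mul_le_mul pv qv hv.2.le hP0
  have h6 : (P * Q) ^ 2 ≤ (2 * X) ^ 2 := by
    rw [mul_pow, hP, hQ, Real.sq_sqrt (by positivity), Real.sq_sqrt (by positivity)]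
    have h7 : Real.exp t * Real.exp (-s) ≤ 4 := by
      rw [← Real.exp_add]
      have h8 : Real.exp (t + -s) ≤ Real.exp 1 := Real.exp_le_exp.mpr (by linarith)
      have h9 := Real.exp_one_lt_d9
      linarith
    calc X * Real.exp t * (X * Real.exp (-s)) = X ^ 2 * (Real.exp t * Real.exp (-s)) := by ring
      _ ≤ X ^ 2 * 4 := by gcongr
      _ = (2 * X) ^ 2 := by ring
  have h7 : P * Q ≤ 2 * X :=
    (pow_le_pow_iff_left₀ (by positivity) (by positivity) two_ne_zero).mp h6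
  linarith

end Pool.Agent.Lib.MP_d57abb_nt
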