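import Pool.Agent.Lib.MP_d57abb_nt.Asym

/-!
# The value `-1`
-/

open Real

namespace Pool.Agent.Lib.MP_d57abb_nt

variable {g : ℕ → ℤ}

/-- conjugation -/
def cj (v : ℤ × ℤ) : ℤ × ℤ := (v.1 + 3 * v.2, - v.2)

theorem pp_cj (v : ℤ × ℤ) : pp (cj v) = qq v := by
  unfold pp qq cj
  push_cast
  linear_combination (- (v.2 : ℝ)) * al_add_be

theorem qq_cj (v : ℤ × ℤ) : qq (cj v) = pp v := by
  unfold pp qq cj
  push_cast
  linear_combination (- (v.2 : ℝ)) * al_add_be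

theorem TP.cj {v : ℤ × ℤ} (h : TP v) : TP (cj v) := ⟨by rw [pp_cj]; exact h.2, by rw [qq_cj]; exact h.1⟩

theorem an_cj (v : ℤ × ℤ) : an (cj v) = - an v := by
  unfold an; rw [pp_cj, qq_cj]; ring

theorem sg_lt (g : ℕ → ℤ) (k : ℕ) : sg g ((k : ℤ), 1) = g (k ^ 2 + 3 * k + 1) := by
  unfold sg
  rw [nm_lt]
  congr 1

theorem ak_le (k : ℕ) : ak k ≤ 2 * Real.log al := by
  have hal : 0 < al := by linarith [al_lo]
  unfold ak
  rw [an_le_iff (TP_lt k), two_mul, Real.exp_add, Real.exp_log hal]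
  unfold pp qq
  push_cast
  have h1 := al_mul_be
  have h2 : (0 : ℝ) ≤ k := by positivity
  have h3 : al * al * ((k : ℝ) + 1 * be) = al * al * k + al := by
    linear_combination al * h1
  rw [h3]
  have h4 : (k : ℝ) ≤ al * al * k := by
    have : 1 ≤ al * al := by nlinarith [al_lo]
    nlinarith
  linarith

theorem exists_rho (hg : CM g) {k₀ : ℕ} (h : g (k₀ ^ 2 + 3 * k₀ + 1) = -1) :
    ∃ ρ : ℤ × ℤ, TP ρ ∧ sg g ρ = -1 ∧ 0 ≤ an ρ ∧ an ρ ≤ 1 / 5 := by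
  have ha : TP ((k₀ : ℤ), 1) := TP_lt k₀
  have hs : sg g ((k₀ : ℤ), 1) = -1 := by rw [sg_lt, h]
  have hpos : 0 < an ((k₀ : ℤ), 1) := ak_pos k₀
  rcases le_or_gt (an ((k₀ : ℤ), 1)) (1 / 5) with h1 | h1
  · exact ⟨_, ha, hs, hpos.le, h1⟩
  · have h2 : an ((k₀ : ℤ), 1) ≤ 2 * Real.log al := ak_le k₀
    obtain ⟨k, j, hk, hkn, _, hkj⟩ := dirich (s := (an ((k₀ : ℤ), 1) - 1 / 10) / 2)
      (by linarith) (by linarith) (n := 60) (by norm_num)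
    have tv' : TP ((k : ℤ), (j : ℤ)) := TP_nat hk
    have h3 : |an ((k : ℤ), (j : ℤ)) - (an ((k₀ : ℤ), 1) - 1 / 10) / 2| ≤ 1 / 20 := by
      refine hkj.trans ?_
      have hk1 : (1 : ℝ) ≤ k := by exact_mod_cast hk
      rw [div_le_div_iff₀ (by positivity) (by norm_num)]
      push_cast
      linarith
    rw [abs_le] at h3
    refine ⟨ml ((k₀ : ℤ), 1) (ml (cj ((k : ℤ), (j : ℤ))) (cj ((k : ℤ), (j : ℤ)))),
      ha.ml (tv'.cj.ml tv'.cj), ?_, ?_, ?_⟩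
    · rw [sg_ml hg, sg_ml hg, sg_mul_self hg tv'.cj, hs, mul_one]
    · rw [an_ml ha (tv'.cj.ml tv'.cj), an_ml tv'.cj tv'.cj, an_cj]
      linarith [h3.2]
    · rw [an_ml ha (tv'.cj.ml tv'.cj), an_ml tv'.cj tv'.cj, an_cj]
      linarith [h3.1]

theorem minus (hg : CM g) {k₀ : ℕ} (h : g (k₀ ^ 2 + 3 * k₀ + 1) = -1) {ε : ℝ} (hε : 0 < ε) :
    ∃ N₀ : ℕ, ∀ N ≥ N₀, (N : ℝ) ^ (1 - ε) ≤ (FF g (-1) N).card := by
  obtain ⟨ρ, h1, h2, h3, h4⟩ := exists_rho hg h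
  obtain ⟨R, hR⟩ := exists_nat_gt (16 / ε)
  obtain ⟨C, hC1, hC⟩ := count2 hg h1 h2 h3 h4 R
  refine from_pairs (T := fun M => (TT g M).card) (F := fun N => (FF g (-1) N).card) (r := R)
    (a := 4) (by norm_num) hC1 hC (fun M M' h => TT_mono g h) (fun δ hδ => card_TT_le g δ hδ) hε ?_
  have hR0 : (0 : ℝ) < R := lt_trans (by positivity) hR
  rw [div_le_iff₀ (by positivity)]
  rw [div_lt_iff₀ hε] at hR
  push_cast
  nlinarith

end Pool.Agent.Lib.MP_d57abb_nt
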