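import Pool.Agent.Lib.MP_d57abb_nt.Farey
import Pool.Agent.Lib.MP_d57abb_nt.Dir

/-!
# Walking along a word of sign `-1` and tiny angle
-/

open Real

namespace Pool.Agent.Lib.MP_d57abb_nt

/-- the displacement of a signed letter -/
noncomputable def dl (x : Bool × (ℤ × ℤ)) : ℝ := if x.1 then an x.2 else - an x.2

/-- the points visited when walking along a word -/
noncomputable def pts : List (Bool × (ℤ × ℤ)) → ℝ → List ℝ
  | [], s => [s]
  | x :: l, s => s :: pts l (s + dl x)

/-- total displacement -/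
noncomputable def tot (l : List (Bool × (ℤ × ℤ))) : ℝ := (l.map dl).sum

/-- sign of a word -/
def sgl (g : ℕ → ℤ) (l : List (Bool × (ℤ × ℤ))) : ℤ := (l.map (fun x => sg g x.2)).prod

/-- two totally positive elements of opposite sign, of norms at most `X`, near `s` -/
def Alt (g : ℕ → ℤ) (η X s : ℝ) : Prop := ∃ a b : ℤ × ℤ, TP a ∧ TP b ∧ sg g a ≠ sg g b ∧
  |an a - s| ≤ 2 * η ∧ |an b - s| ≤ 2 * η ∧ (nm a : ℝ) ≤ X ∧ (nm b : ℝ) ≤ X

theorem tot_nil : tot [] = 0 := rfl
theorem tot_cons (x : Bool × (ℤ × ℤ)) (l) : tot (x :: l) = dl x + tot l := by simp [tot]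
theorem tot_append (l l') : tot (l ++ l') = tot l + tot l' := by simp [tot]
theorem sgl_nil (g : ℕ → ℤ) : sgl g [] = 1 := rfl
theorem sgl_cons (g : ℕ → ℤ) (x : Bool × (ℤ × ℤ)) (l) : sgl g (x :: l) = sg g x.2 * sgl g l := by
  simp [sgl]
theorem sgl_append (g : ℕ → ℤ) (l l') : sgl g (l ++ l') = sgl g l * sgl g l' := by simp [sgl]

theorem pts_eq_map (l : List (Bool × (ℤ × ℤ))) : ∀ s : ℝ, pts l s = (pts l 0).map (fun t => t + s) := by
  induction l with
  | nil => intro s; simp [pts]
  | cons x l ih =>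
    intro s
    simp only [pts, List.map_cons, zero_add]
    rw [ih (s + dl x), ih (dl x), List.map_map]
    congr 1
    apply List.map_congr_left
    intro t _
    simp only [Function.comp]
    ring

theorem length_pts (l : List (Bool × (ℤ × ℤ))) : ∀ s : ℝ, (pts l s).length = l.length + 1 := by
  induction l with
  | nil => intro s; simp [pts]
  | cons x l ih => intro s; simp only [pts, List.length_cons, ih]

theorem mem_pts_self (l : List (Bool × (ℤ × ℤ))) (s : ℝ) : s ∈ pts l s := by
  cases l <;> simp [pts]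

variable {g : ℕ → ℤ}

theorem path_aux (hg : CM g) {η Q B : ℝ} (hη : 0 ≤ η) (hQ : 0 ≤ Q) (hB : 1 ≤ B) :
    ∀ (l : List (Bool × (ℤ × ℤ))) (s : ℝ), (∀ x ∈ l, TP x.2 ∧ (nm x.2 : ℝ) ≤ B) →
      (∀ t ∈ pts l s, Good η Q t ∧ ¬ Alt g η (Q * B) t) →
      ∀ v w : ℤ × ℤ, TP v → TP w → |an v - s| ≤ η → (nm v : ℝ) ≤ Q →
        |an w - (s + tot l)| ≤ η → (nm w : ℝ) ≤ Q → sg g w = sg g v * sgl g l := by
  have hQB : Q ≤ Q * B := by nlinarith
  have mulnm : ∀ a b : ℤ × ℤ, TP a → TP b → (nm a : ℝ) ≤ Q → (nm b : ℝ) ≤ B →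
      (nm (ml a b) : ℝ) ≤ Q * B := by
    intro a b ha hb h1 h2
    rw [nm_ml]
    push_cast
    have h3 : (0 : ℝ) < nm b := by exact_mod_cast hb.nm_pos
    exact mul_le_mul h1 h2 h3.le hQ
  intro l
  induction l with
  | nil =>
    intro s _ hpts v w hv hw h1 h2 h3 h4
    have h5 := (hpts s (by simp [pts])).2
    rw [sgl_nil, mul_one]
    rw [tot_nil, add_zero] at h3
    by_contra hne
    exact h5 ⟨w, v, hw, hv, hne, h3.trans (by linarith), h1.trans (by linarith),
      h4.trans hQB, h2.trans hQB⟩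
  | cons x l ih =>
    intro s hl hpts v w hv hw h1 h2 h3 h4
    obtain ⟨hx1, hx2⟩ := hl x (by simp)
    have hs := hpts s (by simp [pts])
    have hs' := hpts (s + dl x) (by simp [pts, mem_pts_self])
    obtain ⟨v', tv', hv'1, hv'2⟩ := hs'.1
    have hrec := ih (s + dl x) (fun y hy => hl y (by simp [hy]))
      (fun t ht => hpts t (by simp [pts, ht])) v' w tv' hw hv'1 hv'2
      (by rw [tot_cons] at h3; rw [add_assoc]; exact h3) h4
    have hstep : sg g v' = sg g v * sg g x.2 := by
      obtain ⟨b, ρ⟩ := x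
      cases b with
      | true =>
        have e : dl (true, ρ) = an ρ := by simp [dl]
        rw [e] at hv'1 hs'
        have k1 : |an (ml v ρ) - (s + an ρ)| ≤ 2 * η := by
          rw [an_ml hv hx1]
          have : an v + an ρ - (s + an ρ) = an v - s := by ring
          rw [this]; linarith
        by_contra hne
        rw [← sg_ml hg] at hne
        exact hs'.2 ⟨v', ml v ρ, tv', hv.ml hx1, hne, hv'1.trans (by linarith), k1,
          hv'2.trans hQB, mulnm v ρ hv hx1 h2 hx2⟩
      | false =>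
        have e : dl (false, ρ) = - an ρ := by simp [dl]
        rw [e] at hv'1 hs'
        have k1 : |an (ml v' ρ) - s| ≤ 2 * η := by
          rw [an_ml tv' hx1]
          have : an v' + an ρ - s = an v' - (s + - an ρ) := by ring
          rw [this]; linarith
        have h6 : sg g (ml v' ρ) = sg g v := by
          by_contra hne
          exact hs.2 ⟨ml v' ρ, v, tv'.ml hx1, hv, hne, k1, h1.trans (by linarith),
            mulnm v' ρ tv' hx1 hv'2 hx2, h2.trans hQB⟩
        rw [sg_ml hg] at h6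
        simp only
        rw [← h6, mul_assoc, sg_mul_self hg hx1, mul_one]
    rw [hrec, hstep, sgl_cons]
    ring

/-- Along a word of sign `-1` and tiny total angle something happens. -/
theorem path (hg : CM g) {η Q B : ℝ} (hη : 0 ≤ η) (hQ : 0 ≤ Q) (hB : 1 ≤ B)
    (l : List (Bool × (ℤ × ℤ))) (hl : ∀ x ∈ l, TP x.2 ∧ (nm x.2 : ℝ) ≤ B)
    (hsg : sgl g l = -1) (htot : |tot l| ≤ η) (s : ℝ) :
    ∃ t ∈ pts l s, ¬ Good η Q t ∨ Alt g η (Q * B) t := by
  by_contra hcon
  push Not at hcon
  have hQB : Q ≤ Q * B := by nlinarith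
  -- the last point
  have hlast : s + tot l ∈ pts l s := by
    clear hcon htot hsg hl
    induction l generalizing s with
    | nil => simp [pts, tot_nil]
    | cons x l ih =>
      simp only [pts, List.mem_cons]
      right
      rw [tot_cons, ← add_assoc]
      exact ih (s + dl x)
  obtain ⟨v, tv, hv1, hv2⟩ := (hcon s (mem_pts_self l s)).1
  obtain ⟨w, tw, hw1, hw2⟩ := (hcon _ hlast).1
  have h := path_aux hg hη hQ hB l s hl hcon v w tv tw hv1 hv2 hw1 hw2
  rw [hsg] at h
  have hne : sg g w ≠ sg g v := by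
    rw [h]
    rcases sg_val hg tv with h5 | h5 <;> rw [h5] <;> norm_num
  apply (hcon s (mem_pts_self l s)).2
  refine ⟨w, v, tw, tv, hne, ?_, hv1.trans (by linarith), hw2.trans hQB, hv2.trans hQB⟩
  have : an w - s = (an w - (s + tot l)) + tot l := by ring
  rw [this]
  exact (abs_add_le _ _).trans (by linarith)

end Pool.Agent.Lib.MP_d57abb_nt
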