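import Pool.Agent.Lib.MP_d57abb_nt.Path

/-!
# Words with tiny angle: iterated differences of the angles of `k + α`
-/

open Real

namespace Pool.Agent.Lib.MP_d57abb_nt

/-- the angle of `k + α` -/
noncomputable def ak (k : ℕ) : ℝ := an ((k : ℤ), 1)

/-- iterated differences -/
noncomputable def DD : ℕ → ℕ → ℝ
  | 0, k => ak k
  | i + 1, k => DD i k - DD i (k + 1)

/-- `i! / (x (x+1) ... (x+i))` -/
noncomputable def Gc (i : ℕ) (x : ℝ) : ℝ := (i.factorial : ℝ) / ∏ j ∈ Finset.range (i + 1), (x + j)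

theorem prod_pos' (i : ℕ) {x : ℝ} (hx : 0 < x) : 0 < ∏ j ∈ Finset.range (i + 1), (x + j) :=
  Finset.prod_pos fun j _ => by positivity

theorem Gc_pos (i : ℕ) {x : ℝ} (hx : 0 < x) : 0 < Gc i x :=
  div_pos (by positivity) (prod_pos' i hx)

theorem Gc_succ_eq (i : ℕ) {x : ℝ} (hx : 0 < x) :
    Gc i x = (x + i + 1) / (i + 1) * Gc (i + 1) x := by
  unfold Gc
  have h1 := prod_pos' i hx
  rw [Finset.prod_range_succ _ (i + 1), Nat.factorial_succ]
  push_cast
  have h2 : (0 : ℝ) < x + (i + 1) := by positivity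
  have h3 : (0 : ℝ) < (i : ℝ) + 1 := by positivity
  field_simp
  ring

theorem Gc_sub (i : ℕ) {x : ℝ} (hx : 0 < x) : Gc i x - Gc i (x + 1) = Gc (i + 1) x := by
  have h1 := prod_pos' i hx
  have h2 := prod_pos' i (show 0 < x + 1 by linarith)
  have h3 := prod_pos' (i + 1) hx
  have e1 : ∏ j ∈ Finset.range (i + 1 + 1), (x + (j : ℝ)) =
      (∏ j ∈ Finset.range (i + 1), (x + (j : ℝ))) * (x + (i + 1)) := by
    rw [Finset.prod_range_succ]; push_cast; ring
  have e2 : ∏ j ∈ Finset.range (i + 1 + 1), (x + (j : ℝ)) =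
      (∏ j ∈ Finset.range (i + 1), (x + 1 + (j : ℝ))) * x := by
    rw [Finset.prod_range_succ' (fun j : ℕ => x + (j : ℝ)) (i + 1)]
    push_cast
    rw [add_zero]
    congr 1
    apply Finset.prod_congr rfl
    intro j _
    ring
  unfold Gc
  rw [Nat.factorial_succ]
  set P := ∏ j ∈ Finset.range (i + 1), (x + (j : ℝ))
  set P' := ∏ j ∈ Finset.range (i + 1), (x + 1 + (j : ℝ))
  have hP' : P' = P * (x + (i + 1)) / x := by
    rw [eq_div_iff hx.ne', ← e2, e1]
  rw [e1, hP']
  have h4 : (0 : ℝ) < x + (i + 1) := by positivity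
  push_cast
  field_simp
  ring

theorem continuousOn_Gc (i k : ℕ) : ContinuousOn (fun t : ℝ => Gc i ((k : ℝ) + t)) (Set.uIcc be al) := by
  have hba : be ≤ al := by linarith [be_hi, al_lo]
  rw [Set.uIcc_of_le hba]
  unfold Gc
  apply ContinuousOn.div continuousOn_const
  · exact continuousOn_finsetProd _ fun j _ => by fun_prop
  · intro t ht
    have : 0 < (k : ℝ) + t := by
      have ht0 : 0 < t := by linarith [be_lo, ht.1]
      positivity
    exact (prod_pos' i this).ne'

theorem integrable_Gc (i k : ℕ) :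
    IntervalIntegrable (fun t : ℝ => Gc i ((k : ℝ) + t)) MeasureTheory.volume be al :=
  (continuousOn_Gc i k).intervalIntegrable

theorem ak_eq (k : ℕ) : ak k = ∫ t in be..al, Gc 0 ((k : ℝ) + t) := by
  have hbe : 0 < be := by linarith [be_lo]
  have hal : 0 < al := by linarith [al_lo]
  have e : (fun t : ℝ => Gc 0 ((k : ℝ) + t)) = fun t => ((k : ℝ) + t)⁻¹ := by
    funext t
    simp [Gc]
  rw [e, intervalIntegral.integral_comp_add_left (fun x => x⁻¹) (k : ℝ),
    integral_inv_of_pos (by positivity) (by positivity), Real.log_div (by positivity) (by positivity)]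
  unfold ak an pp qq
  simp

theorem DD_eq (i : ℕ) : ∀ k : ℕ, DD i k = ∫ t in be..al, Gc i ((k : ℝ) + t) := by
  induction i with
  | zero => intro k; exact ak_eq k
  | succ i ih =>
    intro k
    have hba : be ≤ al := by linarith [be_hi, al_lo]
    rw [DD, ih k, ih (k + 1), ← intervalIntegral.integral_sub (integrable_Gc i k)
      (integrable_Gc i (k + 1))]
    apply intervalIntegral.integral_congr
    intro t ht
    rw [Set.uIcc_of_le hba] at ht
    have hpos : 0 < (k : ℝ) + t := by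
      have ht0 : 0 < t := by linarith [be_lo, ht.1]
      positivity
    simp only
    rw [← Gc_sub i hpos]
    push_cast
    congr 2
    ring

theorem DD_pos (i k : ℕ) : 0 < DD i k := by
  rw [DD_eq]
  apply intervalIntegral.intervalIntegral_pos_of_pos_on (integrable_Gc i k)
  · intro t ht
    apply Gc_pos
    have ht0 : 0 < t := by linarith [be_lo, ht.1]
    positivity
  · linarith [be_hi, al_lo]

theorem DD_le_succ (i k : ℕ) : DD i k ≤ ((k : ℝ) + i + 4) * DD (i + 1) k := by
  have hba : be ≤ al := by linarith [be_hi, al_lo]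
  rw [DD_eq, DD_eq, ← intervalIntegral.integral_const_mul]
  apply intervalIntegral.integral_mono_on hba (integrable_Gc i k)
    ((integrable_Gc (i + 1) k).const_mul _)
  intro t ht
  have hpos : 0 < (k : ℝ) + t := by
    have ht0 : 0 < t := by linarith [be_lo, ht.1]
    positivity
  rw [Gc_succ_eq i hpos]
  apply mul_le_mul_of_nonneg_right _ (Gc_pos (i + 1) hpos).le
  have h1 : (1 : ℝ) ≤ (i : ℝ) + 1 := by
    have : (0 : ℝ) ≤ (i : ℝ) := by positivity
    linarith
  have h2 : t ≤ 3 := by linarith [ht.2, al_hi]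
  calc ((k : ℝ) + t + i + 1) / (i + 1) ≤ (k : ℝ) + t + i + 1 := div_le_self (by positivity) h1
    _ ≤ (k : ℝ) + i + 4 := by linarith

theorem DD_le (i : ℕ) {k : ℕ} (hk : 0 < k) : DD i k ≤ 3 * (i.factorial : ℝ) / (k : ℝ) ^ (i + 1) := by
  have hba : be ≤ al := by linarith [be_hi, al_lo]
  have hk' : (0 : ℝ) < k := by exact_mod_cast hk
  rw [DD_eq]
  have h1 : ∫ t in be..al, Gc i ((k : ℝ) + t) ≤ ∫ t in be..al, (i.factorial : ℝ) / (k : ℝ) ^ (i + 1) := by
    apply intervalIntegral.integral_mono_on hba (integrable_Gc i k) intervalIntegrable_const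
    intro t ht
    have ht0 : 0 < t := by linarith [ht.1, be_lo]
    unfold Gc
    apply div_le_div_of_nonneg_left (by positivity) (by positivity)
    calc (k : ℝ) ^ (i + 1) = ∏ j ∈ Finset.range (i + 1), (k : ℝ) := by
          rw [Finset.prod_const, Finset.card_range]
      _ ≤ ∏ j ∈ Finset.range (i + 1), ((k : ℝ) + t + j) := by
          apply Finset.prod_le_prod (fun _ _ => hk'.le)
          intro j _
          have : (0 : ℝ) ≤ j := by positivity
          linarith
  refine h1.trans ?_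
  rw [intervalIntegral.integral_const, smul_eq_mul, al_sub_be]
  have h2 := sqrt5_hi
  have h3 : (0 : ℝ) ≤ (i.factorial : ℝ) / (k : ℝ) ^ (i + 1) := by positivity
  calc √5 * ((i.factorial : ℝ) / (k : ℝ) ^ (i + 1)) ≤ 3 * ((i.factorial : ℝ) / (k : ℝ) ^ (i + 1)) := by
        apply mul_le_mul_of_nonneg_right _ h3
        linarith
    _ = _ := by ring

theorem ak_lower (k : ℕ) : 2 / ((k : ℝ) + 3) ≤ ak k := by
  have hba : be ≤ al := by linarith [be_hi, al_lo]
  rw [ak_eq]
  have h1 : ∫ t in be..al, 1 / ((k : ℝ) + 3) ≤ ∫ t in be..al, Gc 0 ((k : ℝ) + t) := by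
    apply intervalIntegral.integral_mono_on hba intervalIntegrable_const (integrable_Gc 0 k)
    intro t ht
    have ht0 : 0 < t := by linarith [ht.1, be_lo]
    unfold Gc
    simp only [Nat.factorial_zero, Nat.cast_one, zero_add, Finset.range_one, Finset.prod_singleton,
      Nat.cast_zero, add_zero]
    apply div_le_div_of_nonneg_left (by norm_num) (by positivity)
    linarith [ht.2, al_hi]
  refine le_trans ?_ h1
  rw [intervalIntegral.integral_const, smul_eq_mul, al_sub_be]
  have h2 := sqrt5_lo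
  have h3 : (0 : ℝ) < 1 / ((k : ℝ) + 3) := by positivity
  calc 2 / ((k : ℝ) + 3) = 2 * (1 / ((k : ℝ) + 3)) := by ring
    _ ≤ √5 * (1 / ((k : ℝ) + 3)) := by
        apply mul_le_mul_of_nonneg_right _ h3.le
        linarith

theorem ak_anti (k : ℕ) : ak (k + 1) ≤ ak k := by
  have := DD_pos 1 k
  simp only [DD] at this
  linarith

/-! ### words -/

/-- invert all letters -/
def ng (l : List (Bool × (ℤ × ℤ))) : List (Bool × (ℤ × ℤ)) := l.map (fun x => (!x.1, x.2))

theorem dl_ng (x : Bool × (ℤ × ℤ)) : dl (!x.1, x.2) = - dl x := by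
  obtain ⟨b, ρ⟩ := x
  cases b <;> simp [dl]

theorem tot_ng (l) : tot (ng l) = - tot l := by
  induction l with
  | nil => simp [ng, tot]
  | cons x l ih =>
    have : ng (x :: l) = (!x.1, x.2) :: ng l := rfl
    rw [this, tot_cons, tot_cons, ih, dl_ng]; ring

theorem sgl_ng (g : ℕ → ℤ) (l) : sgl g (ng l) = sgl g l := by
  induction l with
  | nil => rfl
  | cons x l ih =>
    have : ng (x :: l) = (!x.1, x.2) :: ng l := rfl
    rw [this, sgl_cons, sgl_cons, ih]

theorem length_ng (l) : (ng l).length = l.length := by simp [ng]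

theorem mem_ng {l : List (Bool × (ℤ × ℤ))} {x} (h : x ∈ ng l) : ∃ y ∈ l, y.2 = x.2 := by
  unfold ng at h
  obtain ⟨y, hy, rfl⟩ := List.mem_map.mp h
  exact ⟨y, hy, rfl⟩

/-- total variation -/
noncomputable def tv (l : List (Bool × (ℤ × ℤ))) : ℝ := (l.map (fun x => |dl x|)).sum

theorem tv_cons (x : Bool × (ℤ × ℤ)) (l) : tv (x :: l) = |dl x| + tv l := by simp [tv]
theorem tv_append (l l') : tv (l ++ l') = tv l + tv l' := by simp [tv]
theorem tv_nonneg (l) : 0 ≤ tv l := by
  induction l with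
  | nil => simp [tv]
  | cons x l ih => rw [tv_cons]; positivity
theorem tv_ng (l) : tv (ng l) = tv l := by
  induction l with
  | nil => simp [ng, tv]
  | cons x l ih =>
    have : ng (x :: l) = (!x.1, x.2) :: ng l := rfl
    rw [this, tv_cons, tv_cons, ih, dl_ng, abs_neg]

theorem pts_near (l : List (Bool × (ℤ × ℤ))) : ∀ s : ℝ, ∀ t ∈ pts l s, |t - s| ≤ tv l := by
  induction l with
  | nil => intro s t ht; simp [pts] at ht; simp [ht, tv]
  | cons x l ih =>
    intro s t ht
    simp only [pts, List.mem_cons] at ht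
    rw [tv_cons]
    rcases ht with rfl | ht
    · simp only [sub_self, abs_zero]
      have := tv_nonneg l
      positivity
    · have h1 := ih _ _ ht
      have h2 : t - s = (t - (s + dl x)) + dl x := by ring
      rw [h2]
      exact (abs_add_le _ _).trans (by linarith)

theorem pts_append (l l' : List (Bool × (ℤ × ℤ))) : ∀ s : ℝ, ∀ t, t ∈ pts (l ++ l') s →
    t ∈ pts l s ∨ t ∈ pts l' (s + tot l) := by
  induction l with
  | nil => intro s t ht; right; simpa [tot_nil] using ht
  | cons x l ih =>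
    intro s t ht
    simp only [List.cons_append, pts, List.mem_cons] at ht ⊢
    rcases ht with rfl | ht
    · left; left; rfl
    · rcases ih _ _ ht with h | h
      · left; right; exact h
      · right; rw [tot_cons, ← add_assoc]; exact h

/-- the word of the `i`-th difference at `k` -/
def UU : ℕ → ℕ → List (Bool × (ℤ × ℤ))
  | 0, k => [(true, ((k : ℤ), 1))]
  | i + 1, k => UU i k ++ ng (UU i (k + 1))

theorem tot_UU (i : ℕ) : ∀ k, tot (UU i k) = DD i k := by
  induction i with
  | zero => intro k; simp [UU, DD, tot, dl, ak]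
  | succ i ih => intro k; simp only [UU, DD, tot_append, tot_ng, ih]; ring

theorem length_UU (i : ℕ) : ∀ k, (UU i k).length = 2 ^ i := by
  induction i with
  | zero => intro k; simp [UU]
  | succ i ih => intro k; simp only [UU, List.length_append, length_ng, ih]; ring

theorem mem_UU (i : ℕ) : ∀ k, ∀ x ∈ UU i k, ∃ j : ℕ, j ≤ k + i ∧ x.2 = ((j : ℤ), 1) := by
  induction i with
  | zero =>
    intro k x hx
    simp only [UU, List.mem_singleton] at hx
    exact ⟨k, by omega, by rw [hx]⟩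
  | succ i ih =>
    intro k x hx
    simp only [UU, List.mem_append] at hx
    rcases hx with hx | hx
    · obtain ⟨j, h1, h2⟩ := ih k x hx
      exact ⟨j, by omega, h2⟩
    · obtain ⟨y, hy, hyx⟩ := mem_ng hx
      obtain ⟨j, h1, h2⟩ := ih (k + 1) y hy
      exact ⟨j, by omega, by rw [← hyx, h2]⟩

theorem ak_pos (k : ℕ) : 0 < ak k := DD_pos 0 k

theorem tv_UU (i : ℕ) : ∀ k, tv (UU i k) ≤ 2 ^ i * ak k := by
  induction i with
  | zero =>
    intro k
    have : tv (UU 0 k) = ak k := by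
      simp only [UU, tv, List.map_cons, List.map_nil, List.sum_cons, List.sum_nil, dl, if_true, add_zero]
      exact abs_of_pos (ak_pos k)
    rw [this]; simp
  | succ i ih =>
    intro k
    simp only [UU, tv_append, tv_ng]
    have h1 := ih k
    have h2 := ih (k + 1)
    have h3 : (2 : ℝ) ^ i * ak (k + 1) ≤ 2 ^ i * ak k :=
      mul_le_mul_of_nonneg_left (ak_anti k) (by positivity)
    calc tv (UU i k) + tv (UU i (k + 1)) ≤ 2 ^ i * ak k + 2 ^ i * ak k := by linarith
      _ = 2 ^ (i + 1) * ak k := by ring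

/-- repetition -/
def rp : ℕ → List (Bool × (ℤ × ℤ)) → List (Bool × (ℤ × ℤ))
  | 0, _ => []
  | n + 1, l => l ++ rp n l

theorem tot_rp (n : ℕ) (l) : tot (rp n l) = n * tot l := by
  induction n with
  | zero => simp [rp, tot_nil]
  | succ n ih => simp only [rp, tot_append, ih]; push_cast; ring

theorem sgl_rp (g : ℕ → ℤ) (n : ℕ) (l) : sgl g (rp n l) = sgl g l ^ n := by
  induction n with
  | zero => simp [rp, sgl_nil]
  | succ n ih => simp only [rp, sgl_append, ih]; ring

theorem length_rp (n : ℕ) (l : List (Bool × (ℤ × ℤ))) : (rp n l).length = n * l.length := by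
  induction n with
  | zero => simp [rp]
  | succ n ih => simp only [rp, List.length_append, ih]; ring

theorem mem_rp {n : ℕ} {l : List (Bool × (ℤ × ℤ))} {x} (h : x ∈ rp n l) : x ∈ l := by
  induction n with
  | zero => simp [rp] at h
  | succ n ih =>
    simp only [rp, List.mem_append] at h
    rcases h with h | h
    · exact h
    · exact ih h

theorem pts_rp {l : List (Bool × (ℤ × ℤ))} {D Δ τ : ℝ} (hD : 0 ≤ D) (htot : tot l = -D)
    (hτ : tv l ≤ τ) : ∀ n : ℕ, ∀ S : ℝ, 0 ≤ S - n * D → S ≤ Δ → ∀ t ∈ pts (rp n l) S,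
      -τ ≤ t ∧ t ≤ Δ + τ := by
  have hτ0 : 0 ≤ τ := (tv_nonneg l).trans hτ
  intro n
  induction n with
  | zero =>
    intro S h1 h2 t ht
    simp only [rp, pts, List.mem_singleton] at ht
    rw [ht]
    constructor
    · push_cast at h1; linarith
    · linarith
  | succ n ih =>
    intro S h1 h2 t ht
    push_cast at h1
    have hn : (0 : ℝ) ≤ n * D := by positivity
    rcases pts_append _ _ _ _ ht with h | h
    · have := pts_near l S t h
      rw [abs_le] at this
      constructor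
      · nlinarith
      · linarith
    · rw [htot] at h
      exact ih (S + -D) (by linarith) (by linarith) t h

variable {g : ℕ → ℤ}

theorem TP_lt (k : ℕ) : TP ((k : ℤ), 1) := by
  have hal : 0 < al := by linarith [al_lo]
  have hbe : 0 < be := by linarith [be_lo]
  constructor
  · unfold pp; push_cast; positivity
  · unfold qq; push_cast; positivity

/-- a letter is `ρ` or some `j + α` with `j ≤ J` -/
def IsLetter (ρ : ℤ × ℤ) (J : ℕ) (x : Bool × (ℤ × ℤ)) : Prop :=
  x.2 = ρ ∨ ∃ j : ℕ, j ≤ J ∧ x.2 = ((j : ℤ), 1)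

theorem sq_sgl (hg : CM g) {l : List (Bool × (ℤ × ℤ))} (h : ∀ x ∈ l, TP x.2) (n : ℕ) :
    sgl g l ^ (2 * n) = 1 := by
  have h1 : sgl g l ^ 2 = 1 := by
    induction l with
    | nil => simp [sgl_nil]
    | cons x l ih =>
      rw [sgl_cons, mul_pow, ih (fun y hy => h y (by simp [hy])), mul_one, sq]
      exact sg_mul_self hg (h x (by simp))
  rw [pow_mul, h1, one_pow]

/-- adding multiples of the `i`-th difference -/
theorem word_step (hg : CM g) {ρ : ℤ × ℤ} {Δ τ : ℝ} {J K : ℕ} (i : ℕ) (hJ : K + i ≤ J)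
    (hτ : 2 ^ i * ak K ≤ τ) {l : List (Bool × (ℤ × ℤ))} (hl : ∀ x ∈ l, IsLetter ρ J x)
    (hsg : sgl g l = -1) (h0 : 0 ≤ tot l) (hΔ : tot l ≤ Δ)
    (hpts : ∀ t ∈ pts l 0, -τ ≤ t ∧ t ≤ Δ + τ) {m : ℕ} (hm : tot l ≤ 2 * DD i K * m) :
    ∃ l' : List (Bool × (ℤ × ℤ)), (∀ x ∈ l', IsLetter ρ J x) ∧ sgl g l' = -1 ∧ 0 ≤ tot l' ∧
      tot l' ≤ Δ ∧ tot l' ≤ 2 * DD i K ∧ (∀ t ∈ pts l' 0, -τ ≤ t ∧ t ≤ Δ + τ) ∧
      l'.length ≤ l.length + 2 * m * 2 ^ i := by
  set D := DD i K with hD
  have hDpos : 0 < D := DD_pos i K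
  set n : ℕ := ⌊tot l / (2 * D)⌋₊ with hn
  have hn1 : (n : ℝ) * (2 * D) ≤ tot l := by
    rw [← le_div_iff₀ (by positivity)]
    exact Nat.floor_le (by positivity)
  have hn2 : tot l < (n + 1) * (2 * D) := by
    rw [← div_lt_iff₀ (by positivity)]
    exact Nat.lt_floor_add_one _
  have hnm : n ≤ m := by
    have h1 : tot l / (2 * D) ≤ m := by
      rw [div_le_iff₀ (by positivity)]; linarith
    calc n ≤ ⌊(m : ℝ)⌋₊ := Nat.floor_le_floor h1
      _ = m := Nat.floor_natCast m
  set B := ng (UU i K) with hB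
  have hBtot : tot B = - D := by rw [hB, tot_ng, tot_UU]
  have hBtv : tv B ≤ τ := by rw [hB, tv_ng]; exact (tv_UU i K).trans hτ
  have hBlen : B.length = 2 ^ i := by rw [hB, length_ng, length_UU]
  have hBlet : ∀ x ∈ B, ∃ j : ℕ, j ≤ K + i ∧ x.2 = ((j : ℤ), 1) := by
    intro x hx
    obtain ⟨y, hy, hyx⟩ := mem_ng hx
    obtain ⟨j, h1, h2⟩ := mem_UU i K y hy
    exact ⟨j, h1, by rw [← hyx, h2]⟩
  have hBTP : ∀ x ∈ B, TP x.2 := by
    intro x hx
    obtain ⟨j, _, h2⟩ := hBlet x hx
    rw [h2]; exact TP_lt j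
  refine ⟨l ++ rp (2 * n) B, ?_, ?_, ?_, ?_, ?_, ?_, ?_⟩
  · intro x hx
    rcases List.mem_append.mp hx with h | h
    · exact hl x h
    · obtain ⟨j, h1, h2⟩ := hBlet x (mem_rp h)
      exact Or.inr ⟨j, h1.trans hJ, h2⟩
  · rw [sgl_append, sgl_rp, sq_sgl hg hBTP, hsg]; norm_num
  · rw [tot_append, tot_rp, hBtot]; push_cast; linarith
  · rw [tot_append, tot_rp, hBtot]; push_cast
    have : 0 ≤ (n : ℝ) * D := by positivity
    linarith
  · rw [tot_append, tot_rp, hBtot]; push_cast; linarith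
  · intro t ht
    rcases pts_append _ _ _ _ ht with h | h
    · exact hpts t h
    · rw [zero_add] at h
      refine pts_rp hDpos.le hBtot hBtv (2 * n) (tot l) ?_ hΔ t h
      push_cast; linarith
  · rw [List.length_append, length_rp, hBlen]
    have : 2 * n * 2 ^ i ≤ 2 * m * 2 ^ i := by gcongr
    omega

theorem word (hg : CM g) {ρ : ℤ × ℤ} (hρ : TP ρ) (hs : sg g ρ = -1) (h0 : 0 ≤ an ρ)
    (h1 : an ρ ≤ 1) {K : ℕ} (hK : 0 < K) {R : ℕ} : ∀ r ≤ R,
    ∃ l : List (Bool × (ℤ × ℤ)), (∀ x ∈ l, IsLetter ρ (K + R) x) ∧ sgl g l = -1 ∧ 0 ≤ tot l ∧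
      tot l ≤ an ρ ∧ tot l ≤ 2 * DD r K ∧
      (∀ t ∈ pts l 0, -(2 ^ R * (3 / K)) ≤ t ∧ t ≤ an ρ + 2 ^ R * (3 / K)) ∧
      l.length ≤ 2 ^ (r + 2) * (K + r + 4) := by
  have hK' : (0 : ℝ) < K := by exact_mod_cast hK
  have hak : ak K ≤ 3 / K := by
    have := DD_le 0 hK
    simpa [DD] using this
  have hτ : ∀ i ≤ R, (2 : ℝ) ^ i * ak K ≤ 2 ^ R * (3 / K) := by
    intro i hi
    apply mul_le_mul _ hak (ak_pos K).le (by positivity)
    exact pow_le_pow_right₀ (by norm_num) hi
  intro r
  induction r with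
  | zero =>
    intro _
    have hbase : ∀ x ∈ [(true, ρ)], IsLetter ρ (K + R) x := by
      intro x hx
      simp only [List.mem_singleton] at hx
      left; rw [hx]
    have htot : tot [(true, ρ)] = an ρ := by simp [tot, dl]
    have hτ0 : (0 : ℝ) ≤ 2 ^ R * (3 / K) := by positivity
    obtain ⟨l', a1, a2, a3, a4, a5, a6, a7⟩ := word_step (g := g) hg (ρ := ρ) (Δ := an ρ)
      (τ := 2 ^ R * (3 / K)) (J := K + R) (K := K) 0 (by omega) (hτ 0 (by omega))
      (l := [(true, ρ)]) hbase (by simp [sgl, hs]) (by rw [htot]; exact h0) (by rw [htot])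
      (by
        intro t ht
        simp only [pts, List.mem_cons, List.not_mem_nil, or_false] at ht
        have e : dl (true, ρ) = an ρ := by simp [dl]
        rw [e] at ht
        rcases ht with rfl | rfl
        · constructor <;> linarith
        · constructor <;> linarith) (m := K + 3)
      (by
        rw [htot]
        have h2 := ak_lower K
        rw [div_le_iff₀ (by positivity)] at h2
        simp only [DD]
        push_cast
        nlinarith)
    refine ⟨l', a1, a2, a3, a4, a5, a6, a7.trans ?_⟩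
    simp only [List.length_singleton]
    omega
  | succ r ih =>
    intro hr
    obtain ⟨l, b1, b2, b3, b4, b5, b6, b7⟩ := ih (by omega)
    obtain ⟨l', a1, a2, a3, a4, a5, a6, a7⟩ := word_step (g := g) hg (ρ := ρ) (Δ := an ρ)
      (τ := 2 ^ R * (3 / K)) (J := K + R) (K := K) (r + 1) (by omega) (hτ (r + 1) hr)
      b1 b2 b3 b4 b6 (m := K + r + 4)
      (by
        refine b5.trans ?_
        have := DD_le_succ r K
        push_cast
        linarith)
    refine ⟨l', a1, a2, a3, a4, a5, a6, a7.trans ?_⟩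
    have e1 : 2 * (K + r + 4) * 2 ^ (r + 1) = 2 ^ (r + 2) * (K + r + 4) := by ring
    rw [e1]
    calc l.length + 2 ^ (r + 2) * (K + r + 4) ≤ 2 ^ (r + 2) * (K + r + 4) + 2 ^ (r + 2) * (K + r + 4) := by
          omega
      _ = 2 ^ (r + 1 + 2) * (K + r + 4) := by ring
      _ ≤ 2 ^ (r + 1 + 2) * (K + (r + 1) + 4) := by gcongr; omega

end Pool.Agent.Lib.MP_d57abb_nt
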